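import Pool.Agent.H28.TreeClique.HubFinal

set_option autoImplicit false

/-
MP_8c28bb_co, cliques in graphs without a fixed tree, all trees and all n for r >= r0.
Common definitions. K = k - 1 is the number of edges of the tree T.
-/

namespace Pool.Agent.H27.TD

open Finset Classical
open Pool.Agent.H28.TreeClique

variable {V α : Type*}

/-- Neighbours of `v` in `S`. -/
noncomputable def nb (G : SimpleGraph V) (S : Finset V) (v : V) : Finset V :=
  S.filter (fun x => G.Adj v x)

/-- Elements of `S` different from `v` and not adjacent to `v`. -/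
noncomputable def nn (G : SimpleGraph V) (S : Finset V) (v : V) : Finset V :=
  S.filter (fun x => x ≠ v ∧ ¬ G.Adj v x)

/-- Number of `r`-cliques of `G` inside `S` that contain `v`. -/
noncomputable def cd (G : SimpleGraph V) (r : ℕ) (S : Finset V) (v : V) : ℕ :=
  ((KS G r S).filter (fun C => v ∈ C)).card

/-- Near-clique: every vertex of `Q` has at most `m` non-neighbours in `Q`, itself included. -/
def Near (G : SimpleGraph V) (Q : Finset V) (m : ℕ) : Prop :=
  ∀ y ∈ Q, (Q.filter (fun x => ¬ G.Adj y x)).card ≤ m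

/-- `T` is contained in `G`. -/
def Emb (T : SimpleGraph α) (G : SimpleGraph V) : Prop :=
  ∃ f : α → V, Function.Injective f ∧ ∀ x y, T.Adj x y → G.Adj (f x) (f y)

/-- Degree in the tree. -/
noncomputable def dg [Fintype α] (T : SimpleGraph α) (x : α) : ℕ :=
  (univ.filter (fun y => T.Adj x y)).card

/-- The leaves. -/
noncomputable def LF [Fintype α] (T : SimpleGraph α) : Finset α :=
  univ.filter (fun x => dg T x = 1)

/-- The vertices that are not leaves. -/
noncomputable def NL [Fintype α] (T : SimpleGraph α) : Finset α :=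
  univ.filter (fun x => dg T x ≠ 1)

/-- The leaves adjacent to `c`. -/
noncomputable def lfs [Fintype α] (T : SimpleGraph α) (c : α) : Finset α :=
  univ.filter (fun x => T.Adj c x ∧ dg T x = 1)

/-- Vertices of degree at most two, pairwise at distance at least three. -/
def Spread [Fintype α] (T : SimpleGraph α) (A : Finset α) : Prop :=
  (∀ a ∈ A, dg T a ≤ 2) ∧ (∀ a ∈ A, ∀ b ∈ A, ¬ T.Adj a b) ∧
    ∀ a ∈ A, ∀ b ∈ A, ∀ x, T.Adj a x → T.Adj b x → a = b

/-- Trees with many spread vertices of small degree. -/
def TypeI [Fintype α] (T : SimpleGraph α) (a0 : ℕ) : Prop :=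
  ∃ A : Finset α, Spread T A ∧ a0 ≤ A.card

/-- Trees with few non-leaves and at most `lm` leaves at each vertex. -/
def TypeII [Fintype α] (T : SimpleGraph α) (t0 lm : ℕ) : Prop :=
  (NL T).card ≤ t0 ∧ ∀ c, (lfs T c).card ≤ lm

/-- The numerical parameters. `K = k - 1`, `2 ^ L` is about `r`, `q` about `2K/r`. -/
structure Par (K r L q h : ℕ) : Prop where
  hL : 743 ≤ L
  hr1 : r ≤ 2 ^ L
  hr2 : 2 ^ 20 ≤ r
  hr3 : 2 * r ≤ 2 ^ L
  hrK : 4 * r ≤ 3 * K + 1
  hq1 : 2 * K ≤ r * q
  hq2 : r * q ≤ 3 * K
  hh : h = (L + 2) * q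
  hbig : 27738 * h ≤ K

/-- The threshold of the peeling. -/
def theta (K r L : ℕ) : ℕ := (K - 1).choose (r - 1) / 2 ^ L + 1

/-- The vertices of `C` near `u`: `u` and the neighbours of `u` in `C` that miss fewer than `3h`
of the neighbours of `u`. -/
noncomputable def core (G : SimpleGraph V) (C : Finset V) (h : ℕ) (u : V) : Finset V :=
  insert u ((nb G C u).filter (fun v => (nn G (nb G C u) v).card < 3 * h))

/-- The cluster of `u` in `S`: the vertices missing at most `30h` vertices of the core. -/
noncomputable def clu (G : SimpleGraph V) (S C : Finset V) (h : ℕ) (u : V) : Finset V :=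
  S.filter (fun v => (nn G (core G C h u) v).card ≤ 30 * h)

end Pool.Agent.H27.TD
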