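import Pool.Agent.H27.TD.TOrd

set_option autoImplicit false

/-
[H27 TD EGe]  Greedy extension of a partial embedding that can never get stuck.

P0 contains the root c and is closed under par. hstep: whenever U (a subset of C containing
phi0(P0)) has fewer than |T| elements, every v in U has a neighbour in C outside U.
Induction on |univ \ P|: if P <> univ choose x not in P with T.dist c x minimal; then x <> c and
par x in P (distance smaller). U = phi(P) has |P| < |T| elements, so there is a neighbour of
phi (par x) in C \ U; put phi x there. P ∪ {x} is again closed under par. At the end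
phi is defined on univ, injective, and G.Adj (phi x) (phi (par x)) for x <> c. Every edge of T is
{x, par x} (hedge).
-/

namespace Pool.Agent.H27.TD

open Finset Classical

variable {V α : Type*} [Fintype α]

theorem ge (T : SimpleGraph α) (c : α) (par : α → α)
    (hpar : ∀ x, x ≠ c → T.dist c (par x) + 1 = T.dist c x)
    (hedge : ∀ x y, T.Adj x y → (y = par x ∧ x ≠ c) ∨ (x = par y ∧ y ≠ c))
    (G : SimpleGraph V) (C : Finset V) (P0 : Finset α) (hc : c ∈ P0)
    (hP0 : ∀ x ∈ P0, x ≠ c → par x ∈ P0) (φ0 : α → V)
    (hinj : Set.InjOn φ0 (P0 : Set α)) (hmap : ∀ x ∈ P0, φ0 x ∈ C)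
    (hadj : ∀ x ∈ P0, x ≠ c → G.Adj (φ0 x) (φ0 (par x)))
    (hstep : ∀ U ⊆ C, P0.image φ0 ⊆ U → U.card < Fintype.card α → ∀ v ∈ U,
      ∃ x ∈ C, G.Adj v x ∧ x ∉ U) : Emb T G := by
  have key : ∀ n : ℕ, ∀ P : Finset α, (univ \ P).card = n → c ∈ P →
      (∀ x ∈ P, x ≠ c → par x ∈ P) → ∀ φ : α → V, Set.InjOn φ (P : Set α) →
      (∀ x ∈ P, φ x ∈ C) → (∀ x ∈ P, x ≠ c → G.Adj (φ x) (φ (par x))) →
      P0.image φ0 ⊆ P.image φ → Emb T G := by
    intro n
    induction n with
    | zero =>
      intro P hn hcP hPc φ h1 h2 h3 h4
      have hall : ∀ x, x ∈ P := by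
        intro x
        by_contra hx
        have : x ∈ univ \ P := mem_sdiff.mpr ⟨mem_univ _, hx⟩
        rw [card_eq_zero] at hn
        rw [hn] at this
        exact absurd this (notMem_empty _)
      refine ⟨φ, ?_, ?_⟩
      · intro a b hab
        exact h1 (hall a) (hall b) hab
      · intro x y hxy
        rcases hedge x y hxy with ⟨rfl, hx⟩ | ⟨rfl, hy⟩
        · exact h3 x (hall x) hx
        · exact (h3 y (hall y) hy).symm
    | succ n ih =>
      intro P hn hcP hPc φ h1 h2 h3 h4
      have hne : (univ \ P).Nonempty := card_pos.mp (by omega)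
      obtain ⟨x, hx, hxmin⟩ := exists_min_image (univ \ P) (fun x => T.dist c x) hne
      have hxP : x ∉ P := (mem_sdiff.mp hx).2
      have hxc : x ≠ c := by
        intro h
        rw [h] at hxP
        exact hxP hcP
      have hpx : par x ∈ P := by
        by_contra hp
        have h5 := hxmin (par x) (mem_sdiff.mpr ⟨mem_univ _, hp⟩)
        have h6 := hpar x hxc
        omega
      have hUc : (P.image φ).card < Fintype.card α := by
        have e1 : (P.image φ).card = P.card := card_image_of_injOn h1
        have e2 : (univ \ P).card = (univ : Finset α).card - P.card :=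
          card_sdiff_of_subset (subset_univ _)
        rw [card_univ] at e2
        omega
      obtain ⟨y, hyC, hy1, hy2⟩ := hstep (P.image φ) (by
        intro z hz
        rw [mem_image] at hz
        obtain ⟨t, ht, rfl⟩ := hz
        exact h2 t ht) h4 hUc (φ (par x)) (mem_image_of_mem φ hpx)
      have hupd : ∀ t ∈ P, Function.update φ x y t = φ t := by
        intro t ht
        have hne : t ≠ x := by
          intro h
          rw [h] at ht
          exact hxP ht
        exact Function.update_of_ne hne _ _
      have hupd0 : Function.update φ x y x = y := Function.update_self _ _ _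
      refine ih (insert x P) ?_ (mem_insert_of_mem hcP) ?_ (Function.update φ x y) ?_ ?_ ?_ ?_
      · have e1 : univ \ insert x P = (univ \ P).erase x := by
          ext t
          simp only [mem_sdiff, mem_univ, true_and, mem_insert, not_or, mem_erase]
        rw [e1, card_erase_of_mem hx, hn]
        omega
      · intro t ht htc
        rw [mem_insert] at ht
        rcases ht with rfl | ht
        · exact mem_insert_of_mem hpx
        · exact mem_insert_of_mem (hPc t ht htc)
      · intro a ha b hb hab
        rw [Finset.mem_coe, mem_insert] at ha hb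
        rcases ha with rfl | ha <;> rcases hb with rfl | hb
        · rfl
        · rw [hupd0, hupd b hb] at hab
          exact absurd (hab ▸ mem_image_of_mem φ hb) hy2
        · rw [hupd0, hupd a ha] at hab
          exact absurd (hab ▸ mem_image_of_mem φ ha) hy2
        · rw [hupd a ha, hupd b hb] at hab
          exact h1 ha hb hab
      · intro t ht
        rw [mem_insert] at ht
        rcases ht with rfl | ht
        · rw [hupd0]; exact hyC
        · rw [hupd t ht]; exact h2 t ht
      · intro t ht htc
        rw [mem_insert] at ht
        rcases ht with rfl | ht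
        · rw [hupd0, hupd _ hpx]; exact hy1.symm
        · rw [hupd t ht, hupd _ (hPc t ht htc)]; exact h3 t ht htc
      · refine h4.trans ?_
        intro z hz
        rw [mem_image] at hz ⊢
        obtain ⟨t, ht, rfl⟩ := hz
        exact ⟨t, mem_insert_of_mem ht, hupd t ht⟩
  exact key _ P0 rfl hc hP0 φ0 hinj hmap hadj (subset_refl _)

end Pool.Agent.H27.TD
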