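import Pool.Agent.H27.TD.Defs

set_option autoImplicit false

/-
[H27 TD EPot]  One step of the potential argument.

For each rho in Q let x = (number of y in Y not adjacent to rho)/|Y| <= 1/32. Then
sum over y in Y of (if Adj y rho then u^2 else 1) = |Y| (x + (1-x) u^2) <= |Y| (1/32 + 31/32 u^2)
<= |Y| u, since x + (1-x) u^2 is nondecreasing in x (u <= 1) and 1 + 31 u^2 <= 32 u for
1/31 <= u <= 1 ((31 u - 1)(u - 1) <= 0). Multiply by f rho >= 0 and sum over rho; exchange the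
sums; then some y in Y has value at most the average (exists_le_of_sum_le or
exists_le_card_nsmul...).
-/

namespace Pool.Agent.H27.TD

open Finset Classical

variable {V : Type*}

theorem pot_step (G : SimpleGraph V) (Y Q : Finset V) (f : V → ℝ) (hf : ∀ ρ ∈ Q, 0 ≤ f ρ) (u : ℝ)
    (hu0 : 1 / 31 ≤ u) (hu1 : u ≤ 1) (hY : Y.Nonempty)
    (hbad : ∀ ρ ∈ Q, 32 * (Y.filter (fun y => ¬ G.Adj y ρ)).card ≤ Y.card) :
    ∃ y ∈ Y, ∑ ρ ∈ Q, f ρ * (if G.Adj y ρ then u ^ 2 else 1) ≤ u * ∑ ρ ∈ Q, f ρ := by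
  apply exists_le_of_sum_le hY
  rw [sum_comm, sum_const, nsmul_eq_mul]
  have h1 : ∀ ρ ∈ Q, ∑ y ∈ Y, f ρ * (if G.Adj y ρ then u ^ 2 else 1) ≤ f ρ * ((Y.card : ℝ) * u) := by
    intro ρ hρ
    rw [← mul_sum]
    apply mul_le_mul_of_nonneg_left _ (hf ρ hρ)
    have e1 : ∑ y ∈ Y, (if G.Adj y ρ then u ^ 2 else (1 : ℝ)) =
        ((Y.filter (fun y => G.Adj y ρ)).card : ℝ) * u ^ 2 +
          ((Y.filter (fun y => ¬ G.Adj y ρ)).card : ℝ) := by
      rw [sum_ite, sum_const, sum_const, nsmul_eq_mul, nsmul_eq_mul, mul_one]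
    have e2 : ((Y.filter (fun y => G.Adj y ρ)).card : ℝ) +
        ((Y.filter (fun y => ¬ G.Adj y ρ)).card : ℝ) = Y.card := by
      exact_mod_cast card_filter_add_card_filter_not (s := Y) (fun y => G.Adj y ρ)
    have e3 : 32 * ((Y.filter (fun y => ¬ G.Adj y ρ)).card : ℝ) ≤ Y.card := by
      exact_mod_cast hbad ρ hρ
    rw [e1]
    set a : ℝ := ((Y.filter (fun y => G.Adj y ρ)).card : ℝ)
    set b : ℝ := ((Y.filter (fun y => ¬ G.Adj y ρ)).card : ℝ)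
    have hn : (0 : ℝ) ≤ Y.card := Nat.cast_nonneg _
    have e4 : u ^ 2 ≤ 1 := by nlinarith
    have e5 : (31 * u - 1) * (u - 1) ≤ 0 := mul_nonpos_of_nonneg_of_nonpos (by linarith) (by linarith)
    have e6 : a * u ^ 2 + b = (Y.card : ℝ) * u ^ 2 + b * (1 - u ^ 2) := by
      rw [← e2]; ring
    rw [e6]
    have e7 : b * (1 - u ^ 2) ≤ (Y.card : ℝ) / 32 * (1 - u ^ 2) :=
      mul_le_mul_of_nonneg_right (by linarith) (by linarith)
    nlinarith
  calc ∑ ρ ∈ Q, ∑ y ∈ Y, f ρ * (if G.Adj y ρ then u ^ 2 else 1)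
      ≤ ∑ ρ ∈ Q, f ρ * ((Y.card : ℝ) * u) := sum_le_sum h1
    _ = (Y.card : ℝ) * (u * ∑ ρ ∈ Q, f ρ) := by
        rw [← sum_mul]
        ring

end Pool.Agent.H27.TD
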