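import Pool.Agent.H27.TD.NHalf

set_option autoImplicit false

/-
[H27 TD NGrow]  If C(b-1, r-1) is below the threshold then C(b+t, r-1) is still tiny for t <= 90q.

Write w = C(K-1, r-1), t0 = r - 1, f(N) = C(N, r-1) (nondecreasing in N).
Hypothesis: f(b-1) < w/2^L + 1, i.e. f(b-1) * 2^L <= w.
Suppose f(b+t) * 2^14 > w. Let N be the LEAST natural number with b - 1 <= N and
f(N) * 2^14 > w. Then N <= b + t <= b + 90 q and N >= b (as f(b-1) * 2^14 <= f(b-1) 2^L <= w),
and f(N-1) * 2^14 <= w.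
(a) N <= K - 1: otherwise N - 1 >= K - 1 >= ... gives f(N-1) >= w and 2^14 > 1, w > 0
    (w > 0 as r - 1 <= K - 1), contradiction with f(N-1) 2^14 <= w. (If N - 1 < b - 1 impossible.)
(b) N > K - 1 - 14 q: otherwise f(N) * 2^14 <= f(K-1-14 q) * 2^14 <= w by `half`
    (N := K-1, t := r-1, j := 14).
(c) So b - 1 >= N - 90 q - 1 >= K - 2 - 14 q - 90 q, and with x >= b - 1:
    x + 2 - r >= K - r - 14 q - 90 q >= K - r - h = D, because (14 + 91) q <= h <= K/27738.
    So for x in [b-1, N): f(x+1) = f(x) * (x+1)/(x+2-r)  (Nat: f(x+1) * (x+2-r) = f(x) * (x+1)),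
    (x+1)/(x+2-r) = 1 + (r-1)/(x+2-r) <= 1 + r/D.
(d) f(N) <= (1 + r/D)^(N-(b-1)) f(b-1), N - (b-1) <= 90 q + 1 <= 91 q, and
    (1 + r/D)^(91 q) <= 2^729, D = K - r - h: chord of u log u on [1, 4.001] (r q <= 3K).
    So w < f(N) 2^14 <= 2^743 f(b-1) <= 2^(743 - L) w <= w, since
    743 <= L. Contradiction.
-/

namespace Pool.Agent.H27.TD

open Finset Classical
open Pool.Agent.H28.TreeClique

/-- the growth factor of one step is at most `1 + r / D` -/
lemma growth_bound (K r q h D i : ℕ) (hK : 2 ^ 20 ≤ K) (hr1 : 1 ≤ r) (hrK : 4 * r ≤ 3 * K + 1) (hrq : r * q ≤ 3 * K)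
    (hh : 27738 * h ≤ K) (hD : D + r + h = K) (hi : i ≤ 91 * q) :
    (1 + (r : ℝ) / D) ^ i ≤ (2 : ℝ) ^ 729 := by
  have hK' : (1048576 : ℝ) ≤ K := by
    have h1 : 1048576 ≤ K := by
      norm_num at hK
      exact hK
    exact_mod_cast h1
  have hrK' : 4 * (r : ℝ) ≤ 3 * K + 1 := by exact_mod_cast hrK
  have hrq' : (r : ℝ) * q ≤ 3 * K := by exact_mod_cast hrq
  have hh' : 27738 * (h : ℝ) ≤ K := by exact_mod_cast hh
  have hD' : (D : ℝ) + r + h = K := by exact_mod_cast hD
  have hi' : (i : ℝ) ≤ 91 * q := by exact_mod_cast hi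
  have hr' : (1 : ℝ) ≤ r := by exact_mod_cast hr1
  have hh0 : (0 : ℝ) ≤ h := Nat.cast_nonneg h
  have hq0 : (0 : ℝ) ≤ q := Nat.cast_nonneg q
  have hDpos : (0 : ℝ) < D := by linarith
  have hU : (r : ℝ) / D ≤ 3001 / 1000 := by
    rw [div_le_iff₀ hDpos]
    linarith
  have hr0 : 0 ≤ (r : ℝ) / D := by positivity
  obtain ⟨u, hu⟩ : ∃ u : ℝ, u = 1 + r / D := ⟨_, rfl⟩
  rw [← hu]
  have hu1 : 1 ≤ u := by linarith
  have hu4 : u ≤ 4001 / 1000 := by linarith
  have hu0 : 0 < u := by linarith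
  -- the chord of `u log u`
  have hch : u * Real.log u ≤ (u - 1) / (3001 / 1000) * (4001 / 1000 * Real.log (4001 / 1000)) := by
    have hb0 : 0 ≤ (u - 1) / (3001 / 1000) := div_nonneg (by linarith) (by norm_num)
    have ha0 : 0 ≤ 1 - (u - 1) / (3001 / 1000) := by
      rw [sub_nonneg, div_le_one (by norm_num)]
      linarith
    have h1 := Real.convexOn_mul_log.2 (show (1 : ℝ) ∈ Set.Ici 0 from Set.mem_Ici.2 zero_le_one)
      (show (4001 / 1000 : ℝ) ∈ Set.Ici 0 from Set.mem_Ici.2 (by norm_num)) ha0 hb0 (by ring)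
    simp only [smul_eq_mul, Real.log_one, mul_zero, mul_one, zero_add] at h1
    have e : 1 - (u - 1) / (3001 / 1000) + (u - 1) / (3001 / 1000) * (4001 / 1000) = u := by
      field_simp
      ring
    rw [e] at h1
    exact h1
  have hlogU : Real.log (4001 / 1000) ≤ 2 * Real.log 2 + 1 / 4000 := by
    have e : (4001 / 1000 : ℝ) = 2 * 2 * (4001 / 4000) := by norm_num
    rw [e, Real.log_mul (by norm_num) (by norm_num), Real.log_mul (by norm_num) (by norm_num)]
    have h1 := Real.log_le_sub_one_of_pos (show (0 : ℝ) < 4001 / 4000 by norm_num)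
    linarith
  have hl2 := Real.log_two_lt_d9
  have hl2' := Real.log_two_gt_d9
  have hlogU2 : Real.log (4001 / 1000) ≤ 13866 / 10000 := by linarith
  have h3 : u * Real.log u ≤ (u - 1) * (18487 / 10000) := by
    have h4 : 4001 / 1000 * Real.log (4001 / 1000) ≤ 4001 / 1000 * (13866 / 10000) := by linarith
    have h5 : (u - 1) / (3001 / 1000) * (4001 / 1000 * Real.log (4001 / 1000)) ≤
        (u - 1) / (3001 / 1000) * (4001 / 1000 * (13866 / 10000)) := by
      apply mul_le_mul_of_nonneg_left h4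
      apply div_nonneg _ (by norm_num)
      linarith
    have h6 : (u - 1) / (3001 / 1000) * (4001 / 1000 * (13866 / 10000)) ≤ (u - 1) * (18487 / 10000) := by
      have h7 : (u - 1) / (3001 / 1000) * (4001 / 1000 * (13866 / 10000)) =
          (u - 1) * (4001 / 3001 * (13866 / 10000)) := by ring
      rw [h7]
      apply mul_le_mul_of_nonneg_left _ (by linarith)
      norm_num
    linarith
  -- `(u - 1) / u = r / (K - h)`
  have h8 : (u - 1) * (K - h) = u * r := by
    have e : (K : ℝ) - h = D + r := by linarith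
    rw [e, hu]
    field_simp
    ring
  have hlog0 : 0 ≤ Real.log u := Real.log_nonneg hu1
  have h9 : (K - h) * Real.log u ≤ r * (18487 / 10000) := by
    have h10 : u * ((K - h) * Real.log u) ≤ u * (r * (18487 / 10000)) := by
      have h11 : 0 ≤ (K : ℝ) - h := by linarith
      calc u * ((K - h) * Real.log u) = (K - h) * (u * Real.log u) := by ring
        _ ≤ (K - h) * ((u - 1) * (18487 / 10000)) := mul_le_mul_of_nonneg_left h3 h11
        _ = ((u - 1) * (K - h)) * (18487 / 10000) := by ring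
        _ = u * (r * (18487 / 10000)) := by rw [h8]; ring
    exact le_of_mul_le_mul_left h10 hu0
  have hKh : 0 < (K : ℝ) - h := by linarith
  have h12 : (q : ℝ) * Real.log u ≤ 55466 / 10000 := by
    have h13 : (K - h) * (q * Real.log u) ≤ (K - h) * (55466 / 10000) := by
      calc (K - h) * (q * Real.log u) = q * ((K - h) * Real.log u) := by ring
        _ ≤ q * (r * (18487 / 10000)) := mul_le_mul_of_nonneg_left h9 hq0
        _ = (r * q) * (18487 / 10000) := by ring
        _ ≤ (3 * K) * (18487 / 10000) := mul_le_mul_of_nonneg_right hrq' (by norm_num)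
        _ ≤ (K - h) * (55466 / 10000) := by nlinarith
    exact le_of_mul_le_mul_left h13 hKh
  have h14 : (i : ℝ) * Real.log u ≤ 729 * Real.log 2 := by
    have h15 : (i : ℝ) * Real.log u ≤ (91 * q) * Real.log u := mul_le_mul_of_nonneg_right hi' hlog0
    nlinarith
  have h16 : Real.log (u ^ i) ≤ Real.log (2 ^ 729) := by
    rw [Real.log_pow, Real.log_pow]
    push_cast
    exact h14
  exact (Real.log_le_log_iff (by positivity) (by positivity)).1 h16

theorem growth {K r L q h : ℕ} (P : Par K r L q h) (b : ℕ) (hb : 1 ≤ b)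
    (hlow : (b - 1).choose (r - 1) < theta K r L) (t : ℕ) (ht : t ≤ 90 * q) :
    (b + t).choose (r - 1) * 2 ^ 14 ≤ (K - 1).choose (r - 1) := by
  obtain ⟨hr, hq, hqK, hrK⟩ := par_pre P
  by_contra hcon
  push Not at hcon
  have hwpos : 0 < (K - 1).choose (r - 1) := Nat.choose_pos (by omega)
  have hlow' : (b - 1).choose (r - 1) * 2 ^ L ≤ (K - 1).choose (r - 1) := by
    have h1 : (b - 1).choose (r - 1) ≤ (K - 1).choose (r - 1) / 2 ^ L := by
      unfold theta at hlow
      exact Nat.le_of_lt_succ hlow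
    exact (Nat.le_div_iff_mul_le (Nat.pow_pos (by norm_num))).mp h1
  generalize hw : (K - 1).choose (r - 1) = w at hcon hlow' hwpos
  have hex : ∃ N, b - 1 ≤ N ∧ w < N.choose (r - 1) * 2 ^ 14 := ⟨b + t, by omega, hcon⟩
  obtain ⟨hN1, hN2⟩ := Nat.find_spec hex
  have hNle : Nat.find hex ≤ b + t := Nat.find_min' hex ⟨by omega, hcon⟩
  have hNmin : ∀ m, m < Nat.find hex → ¬ (b - 1 ≤ m ∧ w < m.choose (r - 1) * 2 ^ 14) :=
    fun m hm => Nat.find_min hex hm
  generalize Nat.find hex = N at hN1 hN2 hNle hNmin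
  have hL := P.hL
  have h2L : 2 ^ 14 ≤ 2 ^ L := Nat.pow_le_pow_right (by norm_num) (by omega)
  have hNb : b ≤ N := by
    by_contra hc
    push Not at hc
    have : N = b - 1 := by omega
    rw [this] at hN2
    have h3 := Nat.mul_le_mul_left ((b - 1).choose (r - 1)) h2L
    omega
  have hpred : (N - 1).choose (r - 1) * 2 ^ 14 ≤ w := by
    have := hNmin (N - 1) (by omega)
    rw [not_and] at this
    have h3 := this (by omega)
    omega
  have hNK : N ≤ K - 1 := by
    by_contra hc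
    push Not at hc
    have h3 : w ≤ (N - 1).choose (r - 1) := by
      rw [← hw]
      exact Nat.choose_le_choose _ (by omega)
    have h4 : 2 ^ 1 ≤ 2 ^ 14 := Nat.pow_le_pow_right (by norm_num) (by norm_num)
    have h5 : w * 2 ≤ (N - 1).choose (r - 1) * 2 ^ 14 := Nat.mul_le_mul h3 (by omega)
    omega
  have hNlow : K - 1 < N + 14 * q := by
    by_contra hc
    push Not at hc
    have h3 := half P (K - 1) (r - 1) 14 (by omega) (by omega)
    rw [hw] at h3
    have h4 : N.choose (r - 1) ≤ (K - 1 - 14 * q).choose (r - 1) :=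
      Nat.choose_le_choose _ (by omega)
    have h5 := Nat.mul_le_mul_right (2 ^ 14) h4
    omega
  -- sizes
  have hsz : 14 * q + 91 * q ≤ h := by
    rw [P.hh, ← add_mul]
    exact Nat.mul_le_mul_right _ (by omega)
  have hbig := P.hbig
  have hrK4 := P.hrK
  obtain ⟨D, hDK⟩ : ∃ D, D + r + h = K := ⟨K - r - h, by omega⟩
  have hDpos' : 0 < D := by omega
  have hDpos : (0 : ℝ) < D := by exact_mod_cast hDpos'
  have hstep : ∀ x, b - 1 ≤ x → x < N →
      ((x + 1).choose (r - 1) : ℝ) ≤ (1 + (r : ℝ) / D) * (x.choose (r - 1) : ℝ) := by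
    intro x hx1 hx2
    have hx3 : D ≤ x + 2 - r := by omega
    have h3 : x.choose (r - 1) * (x + 1) = (x + 1).choose (r - 1) * (x + 1 - (r - 1)) :=
      Nat.choose_mul_succ_eq x (r - 1)
    have h4 : x + 1 - (r - 1) = x + 2 - r := by omega
    rw [h4] at h3
    obtain ⟨d, hd⟩ : ∃ d, x + 2 - r = d := ⟨_, rfl⟩
    rw [hd] at h3 hx3
    have hx4 : x + 1 = d + (r - 1) := by omega
    have hdpos : (0 : ℝ) < d := by
      have : 0 < d := by omega
      exact_mod_cast this
    have h5 : (x.choose (r - 1) : ℝ) * (d + (r - 1 : ℕ)) = ((x + 1).choose (r - 1) : ℝ) * d := by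
      rw [hx4] at h3 ⊢
      exact_mod_cast h3
    have h6 : ((r - 1 : ℕ) : ℝ) ≤ r / D * d := by
      have h7 : ((r - 1 : ℕ) : ℝ) ≤ r := by exact_mod_cast Nat.sub_le r 1
      have h8 : (D : ℝ) ≤ d := by exact_mod_cast hx3
      have h9 : (r : ℝ) ≤ r / D * d := by
        rw [div_mul_eq_mul_div, le_div_iff₀ hDpos]
        exact mul_le_mul_of_nonneg_left h8 (Nat.cast_nonneg _)
      linarith
    have h10 : ((x + 1).choose (r - 1) : ℝ) * d ≤ ((1 + r / D) * (x.choose (r - 1) : ℝ)) * d := by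
      rw [← h5]
      have h11 : (0 : ℝ) ≤ (x.choose (r - 1) : ℝ) := Nat.cast_nonneg _
      calc (x.choose (r - 1) : ℝ) * (d + (r - 1 : ℕ))
          ≤ (x.choose (r - 1) : ℝ) * (d + r / D * d) :=
            mul_le_mul_of_nonneg_left (by linarith) h11
        _ = _ := by ring
    exact le_of_mul_le_mul_right h10 hdpos
  have hind : ∀ i, b - 1 + i ≤ N →
      ((b - 1 + i).choose (r - 1) : ℝ) ≤ (1 + (r : ℝ) / D) ^ i * ((b - 1).choose (r - 1) : ℝ) := by
    intro i
    induction i with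
    | zero => intro _; simp
    | succ i ih =>
      intro hi
      have h3 := ih (by omega)
      have h4 := hstep (b - 1 + i) (by omega) (by omega)
      have h5 : (0 : ℝ) ≤ 1 + (r : ℝ) / D := by positivity
      calc ((b - 1 + (i + 1)).choose (r - 1) : ℝ)
          = ((b - 1 + i + 1).choose (r - 1) : ℝ) := by rw [add_assoc]
        _ ≤ (1 + (r : ℝ) / D) * ((b - 1 + i).choose (r - 1) : ℝ) := h4
        _ ≤ (1 + (r : ℝ) / D) * ((1 + (r : ℝ) / D) ^ i * ((b - 1).choose (r - 1) : ℝ)) :=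
            mul_le_mul_of_nonneg_left h3 h5
        _ = _ := by ring
  obtain ⟨i, hi⟩ := Nat.exists_eq_add_of_le hN1
  have hi91 : i ≤ 91 * q := by omega
  have h3 := hind i (by omega)
  rw [← hi] at h3
  have hK20 : 2 ^ 20 ≤ K := P.hr2.trans (by omega)
  have h5 := growth_bound K r q h D i hK20 (by omega) hrK4 P.hq2 hbig hDK hi91
  have h6 : (N.choose (r - 1) : ℝ) ≤ (2 : ℝ) ^ 729 * ((b - 1).choose (r - 1) : ℝ) :=
    h3.trans (mul_le_mul_of_nonneg_right h5 (Nat.cast_nonneg _))
  have h7 : N.choose (r - 1) ≤ 2 ^ 729 * (b - 1).choose (r - 1) := by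
    have e : ((2 ^ 729 * (b - 1).choose (r - 1) : ℕ) : ℝ) =
        (2 : ℝ) ^ 729 * ((b - 1).choose (r - 1) : ℝ) := by
      rw [Nat.cast_mul, Nat.cast_pow, Nat.cast_ofNat]
    rw [← e] at h6
    exact Nat.cast_le.mp h6
  have h8 : 2 ^ 729 * 2 ^ 14 ≤ 2 ^ L := by
    rw [← pow_add]
    exact Nat.pow_le_pow_right (by norm_num) (by omega)
  have h9 : N.choose (r - 1) * 2 ^ 14 ≤ w := by
    calc N.choose (r - 1) * 2 ^ 14
        ≤ (2 ^ 729 * (b - 1).choose (r - 1)) * 2 ^ 14 := Nat.mul_le_mul_right _ h7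
      _ = (b - 1).choose (r - 1) * (2 ^ 729 * 2 ^ 14) := by ring
      _ ≤ (b - 1).choose (r - 1) * 2 ^ L := Nat.mul_le_mul_left _ h8
      _ ≤ w := hlow'
  exact absurd hN2 (not_lt.mpr h9)

end Pool.Agent.H27.TD
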