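import Pool.Agent.H27.TD.Defs

set_option autoImplicit false

/-
[H27 TD NPar]  Existence of the parameters.

L := max 743 (clog 2 r + 1) (so 2 r <= 2^L). q := (2K + r - 1)/r: then r q >= 2K and
r q <= 2K + r - 1 <= 3K (r <= K since 4 r <= 3K+1 and r >= 2). h := (L+2) q.
hbig: 27738 (L+2) q <= K: since r q <= 3K it is enough that 3 * 27738 (L+2) <= r, which holds for
r >= 2^26 (3 * 27738 * 745 < 2^26, and 3 * 27738 (L+2) <= 2^(L-2) for L >= 100).
-/

namespace Pool.Agent.H27.TD

open Finset Classical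
open Pool.Agent.H28.TreeClique

lemma lin_lt_pow (L : ℕ) (hL : 100 ≤ L) : 3 * 27738 * (L + 2) ≤ 2 ^ (L - 2) := by
  induction L, hL using Nat.le_induction with
  | base => norm_num
  | succ L hL ih =>
    have e1 : 2 ^ (L + 1 - 2) = 2 * 2 ^ (L - 2) := by
      rw [← pow_succ']
      congr 1
      omega
    rw [e1]
    omega

theorem exists_par (r K : ℕ) (hr : 2 ^ 26 ≤ r) (hK : 4 * r ≤ 3 * K + 1) :
    ∃ L q h, Par K r L q h := by
  norm_num at hr
  have h1 : r ≤ 2 ^ (Nat.clog 2 r) := Nat.le_pow_clog (by norm_num) r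
  have h2 : 2 ^ (Nat.clog 2 r - 1) < r := Nat.pow_pred_clog_lt_self (by norm_num) (by omega)
  generalize Nat.clog 2 r = c at h1 h2
  obtain ⟨L, hL⟩ : ∃ L, L = max 743 (c + 1) := ⟨_, rfl⟩
  have hL1 : 743 ≤ L := by omega
  have hL2 : c + 1 ≤ L := by omega
  have h3 : 2 * 2 ^ c ≤ 2 ^ L := by
    rw [← pow_succ']
    exact Nat.pow_le_pow_right (by norm_num) hL2
  have h4 : 3 * 27738 * (L + 2) ≤ r := by
    rcases Nat.lt_or_ge 743 (c + 1) with hc | hc
    · have e : L = c + 1 := by omega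
      have h5 := lin_lt_pow L (by omega)
      have e2 : L - 2 = c - 1 := by omega
      rw [e2] at h5
      omega
    · have e : L = 743 := by omega
      rw [e]
      norm_num
      omega
  have hdm := Nat.div_add_mod (2 * K + r - 1) r
  have hmod := Nat.mod_lt (2 * K + r - 1) (show r > 0 by omega)
  generalize (2 * K + r - 1) / r = q at hdm
  generalize (2 * K + r - 1) % r = e at hdm hmod
  have hq1 : 2 * K ≤ r * q := by omega
  have hq2 : r * q ≤ 3 * K := by omega
  refine ⟨L, q, (L + 2) * q, hL1, by omega, by norm_num; omega, by omega, hK, hq1, hq2, rfl, ?_⟩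
  have h6 : 3 * 27738 * (L + 2) * q ≤ r * q := Nat.mul_le_mul_right _ h4
  have h7 : 3 * (27738 * ((L + 2) * q)) = 3 * 27738 * (L + 2) * q := by ring
  omega

end Pool.Agent.H27.TD
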