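import Pool.Agent.H27.TD.NHalf
import Pool.Agent.H27.TD.NBas
import Pool.Agent.H27.TD.SPeel

set_option autoImplicit false

/-
[H27 TD SDeg]  Degrees and junk. w = C(K-1,r-1), th = theta K r L, w < 2 r th <= 2^(L+1) th.

deg_lower: if th <= cd G r C u then K <= |nb C u| + h. Otherwise |nb C u| <= K-1-h (h = (L+2) q) and
 cd <= C(K-1-(L+2) q, r-1), so th * 2^(L+2) <= cd * 2^(L+2) <= w by `half` (N = K-1, t = r-1,
 j = L+2), contradiction with w < 2 r th <= 2^(L+1) th.
junk: u with |nb C u| <= K - 1, th <= cd G r C u; J = {v in nb C u : 3h <= |nn (nb C u) v|}. Claim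
 |J| < 2h. Put N = nb C u. For v in J: |nb G N v| = |N| - 1 - |nn N v| <= K - 2 - 3h (N is the
 disjoint union of {v}, nb N v, nn N v). Cliques of C containing u: those meeting J: at most
 sum_{v in J} #(containing u and v) <= |J| * C(K-2-3h, r-2) (pair_le with v := u, x := v:
 nb G (nb G C u) v); those avoiding J: at most C(|N| - |J|, r-1) (K.erase u in powersetCard (r-1) (N \ J)).
 If |J| >= 2h: th <= C(K-1-2h, r-1) + K * C(K-2-3h, r-2). By half, C(K-1-2h,r-1) * 2^(2(L+2)) <= w
 (2h = (2(L+2)) q), and C(K-2-3h,r-2) * 2^(3(L+2)) <= C(K-2,r-2), K * C(K-2,r-2) <= 2 (K-1) C(K-2,r-2)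
 = 2 (r-1) w <= 2^(L+1) w. So th * 2^(2L+4) <= w + w (3L+6-L-1 >= 2L+4) <= 2 w, contradiction with
 w < 2^(L+1) th (2L+4-1 >= L+1).
core facts (S_u = core G C h u = {u} ∪ (nb \ J)):
 core_sub: core ⊆ C if u in C; core_card: K + 2 <= |core| + 3h (|nb| >= K - h, |J| <= 2h - 1, plus u);
 core_le: |core| <= K (|nb| <= K-1).
 core_nn: v in core: |nn N v| + 1 <= 3h with N = nb C u (for v = u: nn N u = ∅ and h >= 1),
   hence also |nn core v| <= 3h - 1 (nn core v ⊆ nn N v since core ⊆ insert u N and u is v or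
   adjacent to v).
-/

namespace Pool.Agent.H27.TD

open Finset Classical
open Pool.Agent.H28.TreeClique

variable {V : Type*}

lemma nb_nn_card (G : SimpleGraph V) (S : Finset V) (v : V) (hv : v ∈ S) :
    (nb G S v).card + (nn G S v).card + 1 = S.card := by
  have h1 : S.erase v = nb G S v ∪ nn G S v := by
    ext x
    rw [mem_erase, mem_union, nb, nn, mem_filter, mem_filter]
    constructor
    · rintro ⟨h1, h2⟩
      by_cases h3 : G.Adj v x
      · left; exact ⟨h2, h3⟩
      · right; exact ⟨h2, h1, h3⟩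
    · rintro (h1 | h1)
      · exact ⟨h1.2.ne', h1.1⟩
      · exact ⟨h1.2.1, h1.1⟩
  have h2 : Disjoint (nb G S v) (nn G S v) := by
    rw [disjoint_left]
    intro x hx hx'
    rw [nb, mem_filter] at hx
    rw [nn, mem_filter] at hx'
    exact hx'.2.2 hx.2
  have h3 := card_union_of_disjoint h2
  rw [← h1, card_erase_of_mem hv] at h3
  have : 0 < S.card := card_pos.mpr ⟨v, hv⟩
  omega

theorem deg_lower {K r L q h : ℕ} (P : Par K r L q h) (G : SimpleGraph V) (C : Finset V) (u : V)
    (hu : theta K r L ≤ cd G r C u) : K ≤ (nb G C u).card + h := by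
  obtain ⟨hr, hrK, hq, hqh, hbig, hh3, -⟩ := par_facts P
  by_contra hcon
  push Not at hcon
  have h1 := cd_le G r (by omega) C u
  have h2 : ((nb G C u).card).choose (r - 1) ≤ (K - 1 - (L + 2) * q).choose (r - 1) :=
    Nat.choose_le_choose _ (by rw [← P.hh]; omega)
  have h3 := half P (K - 1) (r - 1) (L + 2) (by omega) (by omega)
  have h4 := lt_theta P
  have h5 : theta K r L * 2 ^ (L + 2) ≤ (K - 1).choose (r - 1) :=
    (Nat.mul_le_mul_right _ (hu.trans (h1.trans h2))).trans h3
  have h6 : 2 * r * theta K r L ≤ 2 * (2 ^ L * theta K r L) := by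
    rw [mul_assoc]
    exact Nat.mul_le_mul_left _ (Nat.mul_le_mul_right _ P.hr1)
  have h7 : theta K r L * 2 ^ (L + 2) = 4 * (2 ^ L * theta K r L) := by ring
  omega

lemma cd_split (G : SimpleGraph V) (r : ℕ) (hr : 2 ≤ r) (C : Finset V) (u : V) (J : Finset V)
    (hJ : J ⊆ nb G C u) :
    cd G r C u ≤ ((nb G C u \ J).card).choose (r - 1) +
      ∑ v ∈ J, ((nb G (nb G C u) v).card).choose (r - 2) := by
  have h1 : (KS G r C).filter (fun K => u ∈ K) ⊆
      (KS G r C).filter (fun K => u ∈ K ∧ Disjoint K J) ∪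
      J.biUnion (fun v => (KS G r C).filter (fun K => u ∈ K ∧ v ∈ K)) := by
    intro K hK
    rw [mem_filter] at hK
    rw [mem_union]
    by_cases hd : Disjoint K J
    · left
      exact mem_filter.mpr ⟨hK.1, hK.2, hd⟩
    · right
      rw [not_disjoint_iff] at hd
      obtain ⟨v, hvK, hvJ⟩ := hd
      rw [mem_biUnion]
      exact ⟨v, hvJ, mem_filter.mpr ⟨hK.1, hK.2, hvK⟩⟩
  refine (card_le_card h1).trans ((card_union_le _ _).trans (Nat.add_le_add ?_ ?_))
  · rw [← card_powersetCard]
    apply card_le_card_of_injOn (fun K => K.erase u)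
    · intro K hK
      rw [Finset.mem_coe, mem_filter, mem_KS] at hK
      obtain ⟨⟨⟨k1, k2⟩, k3⟩, k4, k5⟩ := hK
      rw [Finset.mem_coe, mem_powersetCard]
      refine ⟨?_, by rw [card_erase_of_mem k4, k2]⟩
      intro z hz
      rw [mem_erase] at hz
      rw [mem_sdiff, nb, mem_filter]
      exact ⟨⟨k1 hz.2, k3 k4 hz.2 (Ne.symm hz.1)⟩, disjoint_left.mp k5 hz.2⟩
    · intro K hK K' hK' hKK
      rw [Finset.mem_coe, mem_filter] at hK hK'
      simp only at hKK
      rw [← insert_erase hK.2.1, ← insert_erase hK'.2.1, hKK]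
  · refine card_biUnion_le.trans (sum_le_sum ?_)
    intro v hv
    have h2 := hJ hv
    rw [nb, mem_filter] at h2
    exact pair_le G r hr C u v h2.2.ne

theorem junk {K r L q h : ℕ} (P : Par K r L q h) (G : SimpleGraph V) (C : Finset V) (u : V)
    (huC : u ∈ C) (hu : theta K r L ≤ cd G r C u) (hd : (nb G C u).card + 1 ≤ K) :
    ((nb G C u).filter (fun v => 3 * h ≤ (nn G (nb G C u) v).card)).card < 2 * h := by
  obtain ⟨hr, hrK, hq, hqh, hbig, hh3, -⟩ := par_facts P
  by_contra hcon
  push Not at hcon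
  set N := nb G C u with hN
  set J := N.filter (fun v => 3 * h ≤ (nn G N v).card) with hJ
  have hJN : J ⊆ N := filter_subset _ _
  have h1 := cd_split G r (by omega) C u J hJN
  rw [← hN] at h1
  have h2 : (N \ J).card = N.card - J.card := card_sdiff_of_subset hJN
  have h3 : ((N \ J).card).choose (r - 1) ≤ (K - 1 - (2 * (L + 2)) * q).choose (r - 1) := by
    apply Nat.choose_le_choose
    have e : (2 * (L + 2)) * q = 2 * h := by rw [P.hh]; ring
    rw [e, h2]
    omega
  have h4 : ∑ v ∈ J, ((nb G N v).card).choose (r - 2) ≤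
      K * (K - 2 - (3 * (L + 2)) * q).choose (r - 2) := by
    have e : (3 * (L + 2)) * q = 3 * h := by rw [P.hh]; ring
    have g1 : ∀ v ∈ J, ((nb G N v).card).choose (r - 2) ≤
        (K - 2 - (3 * (L + 2)) * q).choose (r - 2) := by
      intro v hv
      apply Nat.choose_le_choose
      have g2 := nb_nn_card G N v (hJN hv)
      have g3 := (mem_filter.mp hv).2
      rw [e]
      omega
    refine (sum_le_card_nsmul _ _ _ g1).trans ?_
    rw [smul_eq_mul]
    apply Nat.mul_le_mul_right
    have := card_le_card hJN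
    omega
  have h5 := half P (K - 1) (r - 1) (2 * (L + 2)) (by omega) (by omega)
  have h6 := half P (K - 2) (r - 2) (3 * (L + 2)) (by omega) (by omega)
  have h7 := w2_mul P
  have h8 := lt_theta P
  have h9 := P.hr1
  generalize (K - 1 - (2 * (L + 2)) * q).choose (r - 1) = A at h3 h5
  generalize (K - 2 - (3 * (L + 2)) * q).choose (r - 2) = B at h4 h6
  generalize (K - 2).choose (r - 2) = w2 at h6 h7
  generalize (K - 1).choose (r - 1) = w at h5 h7 h8
  generalize theta K r L = th at h8 hu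
  have hAB : th ≤ A + K * B := by omega
  -- K B 2^(2L+4) ≤ w
  have g1 : K * w2 ≤ 2 * (2 ^ L * w) := by
    calc K * w2 ≤ (2 * (K - 1)) * w2 := Nat.mul_le_mul_right _ (by omega)
      _ = 2 * ((K - 1) * w2) := by ring
      _ = 2 * ((r - 1) * w) := by rw [h7]
      _ ≤ 2 * (2 ^ L * w) := Nat.mul_le_mul_left _ (Nat.mul_le_mul_right _ (by omega))
  have g2 : K * B * 2 ^ (2 * (L + 2)) ≤ w := by
    have g3 : K * B * 2 ^ (2 * (L + 2)) * 2 ^ (L + 2) ≤ w * 2 ^ (L + 2) := by
      calc K * B * 2 ^ (2 * (L + 2)) * 2 ^ (L + 2) = K * (B * 2 ^ (3 * (L + 2))) := by ring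
        _ ≤ K * w2 := Nat.mul_le_mul_left _ h6
        _ ≤ 2 * (2 ^ L * w) := g1
        _ ≤ 4 * (2 ^ L * w) := Nat.mul_le_mul_right _ (by norm_num)
        _ = w * 2 ^ (L + 2) := by ring
    exact Nat.le_of_mul_le_mul_right g3 (Nat.pow_pos (by norm_num))
  have g4 : th * 2 ^ (2 * (L + 2)) ≤ 2 * w := by
    calc th * 2 ^ (2 * (L + 2)) ≤ (A + K * B) * 2 ^ (2 * (L + 2)) := Nat.mul_le_mul_right _ hAB
      _ = A * 2 ^ (2 * (L + 2)) + K * B * 2 ^ (2 * (L + 2)) := by ring
      _ ≤ w + w := Nat.add_le_add h5 g2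
      _ = 2 * w := by ring
  have g5 : 2 * r * th ≤ 2 * (2 ^ L * th) := by
    rw [mul_assoc]
    exact Nat.mul_le_mul_left _ (Nat.mul_le_mul_right _ h9)
  have g6 : 4 * (2 ^ L * th) ≤ th * 2 ^ (2 * (L + 2)) := by
    calc 4 * (2 ^ L * th) = th * 2 ^ (L + 2) := by ring
      _ ≤ th * 2 ^ (2 * (L + 2)) :=
        Nat.mul_le_mul_left _ (Nat.pow_le_pow_right (by norm_num) (by omega))
  omega

theorem core_sub (G : SimpleGraph V) (C : Finset V) (h : ℕ) (u : V) (huC : u ∈ C) :
    core G C h u ⊆ C := by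
  unfold core
  apply insert_subset huC
  exact (filter_subset _ _).trans (filter_subset _ _)

theorem core_card {K r L q h : ℕ} (P : Par K r L q h) (G : SimpleGraph V) (C : Finset V) (u : V)
    (huC : u ∈ C) (hu : theta K r L ≤ cd G r C u) (hd : (nb G C u).card + 1 ≤ K) :
    K + 2 ≤ (core G C h u).card + 3 * h ∧ (core G C h u).card ≤ K ∧
      (nb G C u \ core G C h u).card < 2 * h := by
  have h1 := deg_lower P G C u hu
  have h2 := junk P G C u huC hu hd
  have huN : u ∉ nb G C u := by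
    intro h
    rw [nb, mem_filter] at h
    exact G.loopless.irrefl _ h.2
  have h3 : (core G C h u).card =
      ((nb G C u).filter (fun v => (nn G (nb G C u) v).card < 3 * h)).card + 1 := by
    unfold core
    rw [card_insert_of_notMem]
    intro h
    exact huN (mem_filter.mp h).1
  have h4 := card_filter_add_card_filter_not (s := nb G C u)
    (fun v => (nn G (nb G C u) v).card < 3 * h)
  have h5 : (nb G C u).filter (fun v => ¬ (nn G (nb G C u) v).card < 3 * h) =
      (nb G C u).filter (fun v => 3 * h ≤ (nn G (nb G C u) v).card) := by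
    apply filter_congr
    intro x _
    exact not_lt
  rw [h5] at h4
  have h6 : nb G C u \ core G C h u ⊆
      (nb G C u).filter (fun v => 3 * h ≤ (nn G (nb G C u) v).card) := by
    intro x hx
    rw [mem_sdiff] at hx
    rw [mem_filter]
    refine ⟨hx.1, ?_⟩
    by_contra hc
    push Not at hc
    apply hx.2
    unfold core
    exact mem_insert_of_mem (mem_filter.mpr ⟨hx.1, hc⟩)
  have h7 := card_le_card h6
  refine ⟨?_, ?_, ?_⟩ <;> omega

theorem core_nn {K r L q h : ℕ} (P : Par K r L q h) (G : SimpleGraph V) (C : Finset V) (u : V)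
    (huC : u ∈ C) (v : V) (hv : v ∈ core G C h u) :
    (nn G (nb G C u) v).card + 1 ≤ 3 * h ∧ (nn G (core G C h u) v).card + 1 ≤ 3 * h := by
  obtain ⟨hr, hrK, hq, hqh, hbig, hh3, -⟩ := par_facts P
  have h1 : (nn G (nb G C u) v).card + 1 ≤ 3 * h := by
    unfold core at hv
    rw [mem_insert] at hv
    rcases hv with rfl | hv
    · have : nn G (nb G C v) v = ∅ := by
        rw [eq_empty_iff_forall_notMem]
        intro x hx
        rw [nn, mem_filter, nb, mem_filter] at hx
        exact hx.2.2 hx.1.2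
      rw [this, card_empty]
      omega
    · have := (mem_filter.mp hv).2
      omega
  refine ⟨h1, ?_⟩
  have h2 : nn G (core G C h u) v ⊆ nn G (nb G C u) v := by
    intro x hx
    rw [nn, mem_filter] at hx ⊢
    obtain ⟨hx1, hx2, hx3⟩ := hx
    refine ⟨?_, hx2, hx3⟩
    unfold core at hx1 hv
    rw [mem_insert] at hx1 hv
    rcases hx1 with rfl | hx1
    · rcases hv with rfl | hv
      · exact absurd rfl hx2
      · have := (mem_filter.mp (mem_filter.mp hv).1).2
        exact absurd this.symm hx3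
    · exact (mem_filter.mp hx1).1
  have := card_le_card h2
  omega

end Pool.Agent.H27.TD
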