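import Pool.Agent.H27.TD.Defs

set_option autoImplicit false

/-
[H27 TD TSplit]  A union A of components of T - c with l <= |A| <= 2l - 1 and at most l roots.

Closed T c A (from H28 Split): c not in A, and every neighbour of a in A is in A or equals c.
Follow the proof of Pool.Agent.H28.TreeClique.split: choose (c, A) with Closed T c A, l <= |A| and
|A| minimal among ALL such pairs; `split` proves |A| <= 2l - 1 for this minimal pair (repeat its
proof, or: apply the same argument). Extra claim: the set R of neighbours of c in A has at most l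
elements. Suppose |R| >= l + 1 and let x in R. Let A_x = {a in A : a reachable from x in the graph
T with the vertex c isolated (T.deleteIncidenceSet c, or T.induce of the complement; or
{a in A : there is a walk from x to a inside A})}. Then x in A_x, A \ A_x is Closed T c (a neighbour
in A of an element of A \ A_x is again in A \ A_x), and A_x contains no other element of R: if
x' in R, x' <> x were joined to x by a walk avoiding c, then together with c it gives a cycle
(two different paths from x to x': via c and avoiding c; IsTree.existsUnique_path / isAcyclic).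
So |A \ A_x| >= |R| - 1 >= l and |A \ A_x| < |A| contradicts minimality.
-/

namespace Pool.Agent.H27.TD

open Finset Classical
open Pool.Agent.H28.TreeClique

variable {α : Type*} [Fintype α]

/-- The component of `x` in `A`, where `x` is a neighbour of `c` in the closed set `A`. -/
theorem comp_root (T : SimpleGraph α) (hT : T.IsTree) {c : α} {A : Finset α} (hA : Closed T c A)
    {x : α} (hx : x ∈ A) (hcx : T.Adj c x) :
    ∃ A1, A1 ⊆ A ∧ x ∈ A1 ∧ ∀ a ∈ A1, ∀ y, T.Adj a y → y ∈ A1 ∨ (a = x ∧ y = c) := by
  obtain ⟨hcA, hA2⟩ := hA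
  have hbr : ¬ (T.deleteEdges {s(c, x)}).Reachable c x := by
    have h1 := (SimpleGraph.isAcyclic_iff_forall_adj_isBridge.mp hT.isAcyclic) hcx
    rw [SimpleGraph.isBridge_iff] at h1
    exact h1
  refine ⟨A.filter (fun a => (T.deleteEdges {s(c, x)}).Reachable x a), filter_subset _ _, ?_, ?_⟩
  · rw [mem_filter]
    exact ⟨hx, SimpleGraph.Reachable.refl _⟩
  · intro a ha y hay
    rw [mem_filter] at ha
    by_cases he : a = x ∧ y = c
    · right; exact he
    · left
      have h1 : (T.deleteEdges {s(c, x)}).Adj a y := by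
        rw [SimpleGraph.deleteEdges_adj]
        refine ⟨hay, ?_⟩
        rw [Set.mem_singleton_iff, Sym2.eq_iff]
        rintro (⟨h2, h3⟩ | ⟨h2, h3⟩)
        · apply hcA
          rw [← h2]
          exact ha.1
        · exact he ⟨h2, h3⟩
      have h2 : (T.deleteEdges {s(c, x)}).Reachable x y := ha.2.trans h1.reachable
      rw [mem_filter]
      refine ⟨?_, h2⟩
      rcases hA2 a ha.1 y hay with h3 | h3
      · exact h3
      · rw [h3] at h2
        exact absurd h2.symm hbr

omit [Fintype α] in
/-- Removing the component of a root. -/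
theorem comp_sdiff (T : SimpleGraph α) {c : α} {A A1 : Finset α} (hA : Closed T c A)
    {x : α} (key : ∀ a ∈ A1, ∀ y, T.Adj a y → y ∈ A1 ∨ (a = x ∧ y = c)) :
    Closed T c (A \ A1) := by
  obtain ⟨hcA, hA2⟩ := hA
  refine ⟨fun h => hcA (mem_sdiff.mp h).1, ?_⟩
  intro a ha y hay
  rw [mem_sdiff] at ha
  rcases hA2 a ha.1 y hay with h1 | h1
  · left
    rw [mem_sdiff]
    refine ⟨h1, fun h2 => ?_⟩
    rcases key y h2 a hay.symm with h3 | h3
    · exact ha.2 h3
    · apply hcA
      rw [← h3.2]
      exact ha.1
  · right; exact h1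

omit [Fintype α] in
/-- The component of a root contains no other root. -/
theorem comp_uniq (T : SimpleGraph α) {c : α} {A A1 : Finset α} (hA : Closed T c A)
    (hsub : A1 ⊆ A) {x : α} (key : ∀ a ∈ A1, ∀ y, T.Adj a y → y ∈ A1 ∨ (a = x ∧ y = c))
    {x' : α} (hx' : x' ∈ A1) (hc : T.Adj c x') : x' = x := by
  rcases key x' hx' c hc.symm with h | h
  · exact absurd (hsub h) hA.1
  · exact h.1

omit [Fintype α] in
/-- A nonempty closed set contains a neighbour of `c`. -/
theorem exists_root (T : SimpleGraph α) (hT : T.IsTree) {c : α} {A : Finset α}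
    (hA : Closed T c A) (hne : A.Nonempty) : ∃ a ∈ A, T.Adj c a := by
  obtain ⟨hcA, hA2⟩ := hA
  obtain ⟨a0, ha0⟩ := hne
  obtain ⟨p⟩ := hT.connected.preconnected a0 c
  obtain ⟨d, -, hd1, hd2⟩ := p.exists_boundary_dart (A : Set α) (by simpa using ha0)
    (by simpa using hcA)
  have hd1' : d.fst ∈ A := by simpa using hd1
  have hd2' : d.snd ∉ A := by simpa using hd2
  have hd3 : d.snd = c := (hA2 _ hd1' _ d.adj).resolve_left hd2'
  refine ⟨d.fst, hd1', ?_⟩
  have := d.adj
  rw [hd3] at this
  exact this.symm

theorem split2 (T : SimpleGraph α) (hT : T.IsTree) (l : ℕ) (hl : 1 ≤ l)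
    (hk : l + 1 ≤ Fintype.card α) :
    ∃ c A, Closed T c A ∧ l ≤ A.card ∧ A.card ≤ 2 * l - 1 ∧
      (A.filter (fun x => T.Adj c x)).card ≤ l := by
  have hex : ∃ n, l ≤ n ∧ ∃ c A, Closed T c A ∧ A.card = n := by
    have : Nonempty α := Fintype.card_pos_iff.mp (by omega)
    obtain ⟨c⟩ := this
    refine ⟨Fintype.card α - 1, by omega, c, univ.erase c, ⟨notMem_erase _ _, ?_⟩, ?_⟩
    · intro a _ x _
      by_cases hx : x = c
      · right; exact hx
      · left; simp [hx]
    · rw [card_erase_of_mem (mem_univ _), card_univ]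
  obtain ⟨hn1, c, A, hA, hcard⟩ := Nat.find_spec hex
  have hmin : ∀ c' A', Closed T c' A' → l ≤ A'.card → A.card ≤ A'.card := by
    intro c' A' h1 h2
    rw [hcard]
    exact Nat.find_min' hex ⟨h2, c', A', h1, rfl⟩
  rw [← hcard] at hn1
  have hroot : (A.filter (fun x => T.Adj c x)).card ≤ l := by
    by_contra hcon
    push Not at hcon
    obtain ⟨x, hx⟩ : (A.filter (fun x => T.Adj c x)).Nonempty := card_pos.mp (by omega)
    have hx2 := hx
    rw [mem_filter] at hx2
    obtain ⟨A1, hs, hxA1, key⟩ := comp_root T hT hA hx2.1 hx2.2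
    have h1 : (A.filter (fun x => T.Adj c x)).erase x ⊆ A \ A1 := by
      intro y hy
      rw [mem_erase, mem_filter] at hy
      rw [mem_sdiff]
      refine ⟨hy.2.1, fun h => hy.1 (comp_uniq T hA hs key h hy.2.2)⟩
    have h2 := card_le_card h1
    rw [card_erase_of_mem hx] at h2
    have h3 := hmin c _ (comp_sdiff T hA key) (by omega)
    rw [card_sdiff_of_subset hs] at h3
    have h4 : 0 < A1.card := card_pos.mpr ⟨x, hxA1⟩
    have h5 := card_le_card hs
    omega
  refine ⟨c, A, hA, hn1, ?_, hroot⟩
  obtain ⟨c', hc'A, hadj⟩ := exists_root T hT hA (card_pos.mp (by omega))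
  obtain ⟨A1, hsub, hc'A1, key⟩ := comp_root T hT hA hc'A hadj
  have hcl1 : Closed T c' (A1.erase c') := by
    refine ⟨notMem_erase _ _, ?_⟩
    intro a ha x hax
    rw [mem_erase] at ha
    rcases key a ha.2 x hax with h1 | h1
    · by_cases hx : x = c'
      · right; exact hx
      · left; exact mem_erase.mpr ⟨hx, h1⟩
    · exact absurd h1.1 ha.1
  have hcl2 : Closed T c (A \ A1) := comp_sdiff T hA key
  have e1 : (A1.erase c').card = A1.card - 1 := card_erase_of_mem hc'A1
  have e2 : (A \ A1).card = A.card - A1.card := card_sdiff_of_subset hsub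
  have e3 : 0 < A1.card := card_pos.mpr ⟨c', hc'A1⟩
  have e4 : A1.card ≤ A.card := card_le_card hsub
  have f1 : (A1.erase c').card < l := by
    by_contra hcon
    push Not at hcon
    have := hmin c' _ hcl1 hcon
    omega
  have f2 : (A \ A1).card < l := by
    by_contra hcon
    push Not at hcon
    have := hmin c _ hcl2 hcon
    omega
  omega

end Pool.Agent.H27.TD
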