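import Pool.Agent.H27.TD.NBad
import Pool.Agent.H27.TD.TBas
import Pool.Agent.H27.TD.TOrd
import Pool.Agent.H27.TD.ERGP
import Pool.Agent.H27.TD.EFinB
import Pool.Agent.H27.TD.XAux

set_option autoImplicit false

/-
[H27 TD XBigII]  Type II trees embed in a near-clique with K + 1 + h vertices.

P0 = NL, L0 = ∅, Sl = LF. Root z0 in NL arbitrary (NL nonempty: otherwise all vertices are leaves;
|NL| >= 1 since |T| >= 3, leaf_nbr). par, rk from exists_order; par t in NL for t in NL, t <> z0 (par t is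
z0 or has two neighbours). Con = NL \ {z0}. Reg = Q, class 0, PC = NL, lam t = |lfs t|, lm = 1541 h
(>= 1), m = 35 h, wt = 1, g0 = 70 h.
h1: earlier + 32 * 35 h <= 1540 h + 1120 h <= |Q| - 35 h <= |nb Q y'|; h2 similarly.
sum over NL of |lfs| = |LF| >= K + 1 - 1540 h >= K/2 + 140 h, N >= K/(2 * 1541 h); |B| 4^N <= |Q| <= 4K, so
|B| <= h by bad2. finishB: |Q \ phi(NL)| = K + 1 + h - |NL|, |Sl| = K + 1 - |NL|: difference h >= |Bd|.
z0 for finishB: any element of P0; hlast: L0 = ∅; S' = ∅, Cv = ∅.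
-/

namespace Pool.Agent.H27.TD

open Finset Classical
open Pool.Agent.H28.TreeClique

variable {V α : Type*} [Fintype α]

theorem bigII {K r L q h : ℕ} (P : Par K r L q h) (T : SimpleGraph α) (hT : T.IsTree)
    (hcard : Fintype.card α = K + 1) (hII : TypeII T (1540 * h) (1541 * h)) (G : SimpleGraph V)
    (Q : Finset V) (hQ : Near G Q (35 * h)) (hle : Q.card = K + 1 + h) : Emb T G := by
  obtain ⟨-, -, -, -, hbig, hh3, -⟩ := par_facts P
  obtain ⟨hNLc, hlfs⟩ := hII
  obtain ⟨pi, hpi⟩ := leaf_nbr T hT (by omega)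
  obtain ⟨v0, hv0⟩ : Q.Nonempty := card_pos.mp (by omega)
  have : Nonempty V := ⟨v0⟩
  have hNLF := card_NL_LF T
  rw [hcard] at hNLF
  obtain ⟨z0, hz0⟩ : ∃ z0, z0 ∈ NL T := by
    obtain ⟨x⟩ : Nonempty α := Fintype.card_pos_iff.mp (by omega)
    by_cases h : dg T x = 1
    · exact ⟨pi x, by rw [NL, mem_filter]; exact ⟨mem_univ _, (hpi x h).2.2⟩⟩
    · exact ⟨x, by rw [NL, mem_filter]; exact ⟨mem_univ _, h⟩⟩
  obtain ⟨par, rk, hrk, hpar1, hpar2, hrk2⟩ := exists_order T hT z0
  obtain ⟨φ, i1, i2, i3, i4⟩ := rgp G (NL T) rk hrk.injOn par ((NL T).erase z0)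
    (by
      intro t ht
      rw [mem_erase] at ht
      refine ⟨ht.2, par_NL T hz0 par hpar1 ht.2 ht.1, hrk2 _ _ ?_⟩
      have := (hpar1 t ht.1).2
      omega)
    (fun _ => Q) (fun _ => 0)
    (by
      intro t _ t' _ h
      exact absurd rfl h)
    (NL T) (subset_refl _) Q (35 * h) (by omega) hQ (fun _ _ => subset_refl _)
    (by
      intro t ht y hy
      rw [mem_erase] at ht
      rw [if_pos ht.2]
      have h1 := card_earlier (NL T) (NL T) rk (fun _ => 0) t ht.2 (fun t' ht' _ _ => ht')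
      have h2 := near_adj hQ hy
      omega)
    (by
      intro t ht _
      rw [if_pos ht]
      have h1 := card_earlier (NL T) (NL T) rk (fun _ => 0) t ht (fun t' ht' _ _ => ht')
      omega)
    (fun t => (lfs T t).card) (1541 * h) (by omega) (fun t _ => hlfs t) (fun _ => 1) (70 * h)
  rw [sum_lfs T hT (by omega)] at i4
  simp only [sum_const, smul_eq_mul, mul_one] at i4
  set Bg := Q.filter (fun ρ => ∑ t ∈ (NL T).filter (fun t => G.Adj (φ t) ρ),
    (lfs T t).card ≤ 70 * h) with hBg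
  have hBgc : Bg.card ≤ h := by
    refine bad2 P (((LF T).card - 2 * (70 * h)) / (1541 * h)) Bg.card ?_ (by omega)
    rw [← Nat.div_div_eq_div_mul]
    apply Nat.div_le_div_right
    omega
  have himg : ((NL T).image φ).card = (NL T).card := card_image_of_injOn i1
  have hsub : (NL T).image φ ⊆ Q := by
    intro x hx
    rw [mem_image] at hx
    obtain ⟨t, ht, rfl⟩ := hx
    exact i2 t ht
  have hR : (Q \ (NL T).image φ).card + (NL T).card = Q.card := by
    rw [← himg]
    exact card_sdiff_add_card_eq_card hsub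
  refine finishB T G (NL T) (LF T) ∅ ?_ ?_ (disjoint_empty_right _) (disjoint_empty_right _)
    z0 hz0 φ Q (35 * h) hQ pi ?_ ?_ i1 ?_ _ rfl ?_ ∅ (empty_subset _) (by simp) ∅ ?_
    (Or.inl rfl)
  · intro t
    by_cases h : dg T t = 1
    · right; left
      rw [LF, mem_filter]
      exact ⟨mem_univ _, h⟩
    · left
      rw [NL, mem_filter]
      exact ⟨mem_univ _, h⟩
  · rw [disjoint_left]
    intro t h1 h2
    rw [NL, mem_filter] at h1
    rw [LF, mem_filter] at h2
    exact h1.2 h2.2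
  · intro l hl
    rw [LF, mem_filter] at hl
    obtain ⟨h1, h2, h3⟩ := hpi l hl.2
    have h4 : pi l ∈ NL T := by
      rw [NL, mem_filter]
      exact ⟨mem_univ _, h3⟩
    exact ⟨h1, h2, h4, i2 _ h4⟩
  · intro l hl
    simp at hl
  · intro x hx y hy hxy
    rcases hpar2 x y hxy with ⟨h1, h2, -⟩ | ⟨h1, h2, -⟩
    · have := i3 x (mem_erase.mpr ⟨h2, hx⟩)
      rw [← h1] at this
      exact this.symm
    · have := i3 y (mem_erase.mpr ⟨h2, hy⟩)
      rw [← h1] at this
      exact this
  · have h1 : ((Q \ (NL T).image φ).filter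
        (fun ρ => ((LF T).filter (fun l => G.Adj (φ (pi l)) ρ)).card ≤ 2 * (35 * h))) ⊆ Bg := by
      intro ρ hρ
      rw [mem_filter, mem_sdiff] at hρ
      rw [hBg, mem_filter]
      refine ⟨hρ.1.1, ?_⟩
      refine le_trans (sum_lfs_le T hT (by omega) _
        ((LF T).filter (fun l => G.Adj (φ (pi l)) ρ)) ?_) (by omega)
      intro t ht x hx
      rw [mem_filter] at ht
      rw [lfs, mem_filter] at hx
      rw [mem_filter, LF, mem_filter]
      refine ⟨⟨mem_univ _, hx.2.2⟩, ?_⟩
      rw [← (hpi x hx.2.2).2.1 t hx.2.1.symm]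
      exact ht.2
    have h2 := card_le_card h1
    omega
  · intro x hx
    simp at hx

end Pool.Agent.H27.TD
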