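import Pool.Agent.H27.TD.XBeta1
import Pool.Agent.H27.TD.XBeta2
import Pool.Agent.H27.TD.XBigII
import Pool.Agent.H27.TD.XAlpha

set_option autoImplicit false

/-
[H27 TD XThm]  Assembly of Theorem X (done by helper27).
-/

namespace Pool.Agent.H27.TD

open Finset Classical
open Pool.Agent.H28.TreeClique

variable {V α : Type*} [Fintype α]

/-- No cluster of a low vertex has more than `K + h` elements. -/
theorem clu_le {K r L q h : ℕ} (P : Par K r L q h) (T : SimpleGraph α) (hT : T.IsTree)
    (hcard : Fintype.card α = K + 1)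
    (hty : TypeI T (140 * h) ∨ TypeII T (1540 * h) (1541 * h)) (G : SimpleGraph V)
    (hE : ¬ Emb T G) (S C : Finset V) (hCS : C ⊆ S) (u : V) (huC : u ∈ C)
    (hu : theta K r L ≤ cd G r C u) (hd : (nb G C u).card + 1 ≤ K) :
    (clu G S C h u).card ≤ K + h := by
  by_contra hcon
  push Not at hcon
  obtain ⟨-, hcore, -⟩ := core_card P G C u huC hu hd
  obtain ⟨Q', h1, h2, h3⟩ := exists_subsuperset_card_eq (core_sub_clu P G S C hCS u huC)
    (n := K + 1 + h) (by omega) (by omega)
  have hN := clu_near P G S C hCS u huC hu hd Q' h1 h2 (by omega)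
  apply hE
  rcases hty with hI | hII
  · exact bigI P T hT hcard hI G Q' hN (by omega)
  · exact bigII P T hT hcard hII G Q' hN h3

theorem thmX {K r L q h : ℕ} (P : Par K r L q h) (T : SimpleGraph α) (hT : T.IsTree)
    (hcard : Fintype.card α = K + 1)
    (hty : TypeI T (140 * h) ∨ TypeII T (1540 * h) (1541 * h)) (G : SimpleGraph V)
    (hE : ¬ Emb T G) (C : Finset V) (hth : ∀ u ∈ C, theta K r L ≤ cd G r C u) :
    ∀ u ∈ C, (nb G C u).card + 1 ≤ K := by
  intro y hyC
  by_contra hcon
  push Not at hcon
  apply hE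
  refine alpha P T hT hcard G C hth ?_ y hyC (by omega)
  intro u huC hd
  have hu := hth u huC
  have hle := clu_le P T hT hcard hty G hE C C (subset_refl _) u huC hu hd
  refine ⟨hle, ?_⟩
  intro v hv
  by_contra hcon2
  push Not at hcon2
  apply hE
  obtain ⟨hc1, -, -⟩ := core_card P G C u huC hu hd
  have hsub := core_sub_clu P G C C (subset_refl _) u huC
  have hQC : clu G C C h u ⊆ C := filter_subset _ _
  have hN := clu_near P G C C (subset_refl _) u huC hu hd _ hsub (subset_refl _) (by omega)
  have hlow : K + 2 ≤ (clu G C C h u).card + 3 * h := by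
    have := card_le_card hsub
    omega
  have hout : ∀ x ∈ C \ clu G C C h u, 28 * h ≤ (nb G (C \ clu G C C h u) x).card := by
    intro x hx
    exact clu_out_nb P G C u huC x hx (deg_lower P G C x (hth x (mem_sdiff.mp hx).1)) hle
  rcases hty with hI | hII
  · exact beta1 P T hT hcard hI G C _ hQC hN hlow hle hout v hv (by omega)
  · exact beta2 P T hT hcard hII G C _ hQC hN hlow hle hout v hv (by omega)

end Pool.Agent.H27.TD
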