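import Pool.Agent.H27.TD.YBase

set_option autoImplicit false

/-
[H27 TD YCore]  The core of a minimal counterexample, and the cores C_j.

y_core: peel2 with th = theta K r L gives C. If |S \ C| >= K: j = K: |KS S| <= K (th - 1) + |KS (S \ P)|
 <= K (th-1) + F(|S| - K) <= C(K,r) + F(|S| - K) = F(|S|) (theta_mul, hmin, F_sub): contradiction.
 If C <> S: j = 1 gives |KS S| <= (th - 1) + F(|S| - 1), so F(n) < (th - 1) + F(n-1), n = |S|. With
 b = n % K: if b = 0 then n - 1 = (n/K - 1) K + (K-1), F(n) - F(n-1) = C(K,r) - C(K-1,r) = w >= th - 1: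
 contradiction. So b >= 1 and F(n) - F(n-1) = C(b,r) - C(b-1,r) = C(b-1,r-1) < th - 1.
y_cj: 1 <= j <= K. peel2 with th = C(j-1,r-1)/r + 1. j (th - 1) <= C(j,r) because
 j C(j-1,r-1) = r C(j,r). If |S \ C| >= j: |KS S| <= j (th-1) + F(n-j) <= C(j,r) + F(n-j) <= F(n)
 (F_add), contradiction. So |S \ C| < j and |KS S| <= |S \ C| (th-1) + |KS C| <= C(j,r) + |KS C|.
 Degree: x in C: C(j-1,r-1)/r + 1 <= cd <= C(d, r-1), d = |nb C x|. So C(d,r-1) >= 1 and
 C(j-1,r-1) < r C(d,r-1). If 2d + 1 < j, i.e. 2 d <= j - 2: then C(d,r-1) 2^(r-1) <= C(2d, r-1)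
 <= C(j-1, r-1) (desc_double of H28, or choose_double: r * C(d,r-1) <= C(j-1,r-1) if 2 d <= j - 1):
 contradiction. So j <= 2 d + 1.
-/

namespace Pool.Agent.H27.TD

open Finset Classical
open Pool.Agent.H28.TreeClique

variable {V : Type*}

lemma sdiff_ssub {S P : Finset V} (hP : P ⊆ S) (hne : 1 ≤ P.card) : S \ P ⊂ S := by
  obtain ⟨y, hy⟩ : P.Nonempty := card_pos.mp hne
  exact ⟨sdiff_subset, fun hc => (mem_sdiff.mp (hc (hP hy))).2 hy⟩

theorem y_core {K r L q h : ℕ} (P : Par K r L q h) (G : SimpleGraph V) (S : Finset V)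
    (hmin : ∀ S' ⊂ S, (KS G r S').card ≤ F K r S'.card)
    (hbad : F K r S.card < (KS G r S).card) :
    ∃ C ⊆ S, (∀ u ∈ C, theta K r L ≤ cd G r C u) ∧ (S \ C).card < K ∧
      (KS G r S).card ≤ (S \ C).card * (theta K r L - 1) + (KS G r C).card ∧
      (C ≠ S → 1 ≤ S.card % K ∧ (S.card % K - 1).choose (r - 1) < theta K r L) := by
  obtain ⟨hr, hrK, -⟩ := par_facts P
  have hSK := y_card P G S hbad
  obtain ⟨C, hCS, hth, hks, hj⟩ := peel2 G r (theta K r L) S
  refine ⟨C, hCS, hth, ?_, hks, ?_⟩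
  · by_contra hcon
    push Not at hcon
    obtain ⟨R, hR1, hR2, hR3⟩ := hj K hcon
    have hRS : R ⊆ S := hR1.trans sdiff_subset
    have h1 := hmin (S \ R) (sdiff_ssub hRS (by omega))
    rw [card_sdiff_of_subset hRS, hR2] at h1
    have h2 := theta_mul P
    have h3 := F_sub P (n := S.card) (by omega)
    omega
  · intro hne
    have hpos : 1 ≤ (S \ C).card := by
      apply card_pos.mpr
      rw [sdiff_nonempty]
      intro hc
      exact hne (subset_antisymm hCS hc)
    obtain ⟨R, hR1, hR2, hR3⟩ := hj 1 hpos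
    have hRS : R ⊆ S := hR1.trans sdiff_subset
    have h1 := hmin (S \ R) (sdiff_ssub hRS (by omega))
    rw [card_sdiff_of_subset hRS, hR2] at h1
    rw [one_mul] at hR3
    have h2 : F K r S.card < (theta K r L - 1) + F K r (S.card - 1) := by omega
    have hdm := Nat.div_add_mod S.card K
    have hmod := Nat.mod_lt S.card (show K > 0 by omega)
    have hF : F K r S.card = (S.card / K) * K.choose r + (S.card % K).choose r := rfl
    generalize S.card / K = a at hdm hF
    generalize S.card % K = b at hdm hF hmod ⊢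
    have ha : 1 ≤ a := by
      by_contra hc
      have : a = 0 := by omega
      rw [this] at hdm
      omega
    have hth1 : theta K r L - 1 ≤ (K - 1).choose (r - 1) := by
      unfold theta
      rw [Nat.add_sub_cancel]
      exact Nat.div_le_self _ _
    have hb : 1 ≤ b := by
      by_contra hc
      have hb0 : b = 0 := by omega
      rw [hb0, Nat.choose_eq_zero_of_lt (show 0 < r by omega), add_zero] at hF
      have e1 : S.card - 1 = K * (a - 1) + (K - 1) := by
        obtain ⟨a', rfl⟩ : ∃ a', a = a' + 1 := ⟨a - 1, by omega⟩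
        rw [Nat.add_sub_cancel]
        rw [mul_add, mul_one] at hdm
        omega
      have hF1 : F K r (S.card - 1) = (a - 1) * K.choose r + (K - 1).choose r := by
        unfold F
        rw [e1, Nat.mul_add_div (by omega), Nat.div_eq_of_lt (show K - 1 < K by omega),
          Nat.mul_add_mod, Nat.mod_eq_of_lt (show K - 1 < K by omega), add_zero]
      have hW := W_split P
      obtain ⟨a', rfl⟩ : ∃ a', a = a' + 1 := ⟨a - 1, by omega⟩
      rw [Nat.add_sub_cancel] at hF1
      rw [add_mul, one_mul] at hF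
      omega
    refine ⟨hb, ?_⟩
    have e1 : S.card - 1 = K * a + (b - 1) := by omega
    have hF1 : F K r (S.card - 1) = a * K.choose r + (b - 1).choose r := by
      unfold F
      rw [e1, Nat.mul_add_div (by omega), Nat.div_eq_of_lt (show b - 1 < K by omega),
        Nat.mul_add_mod, Nat.mod_eq_of_lt (show b - 1 < K by omega), add_zero]
    have e2 : b.choose r = (b - 1).choose (r - 1) + (b - 1).choose r := by
      obtain ⟨b', rfl⟩ : ∃ b', b = b' + 1 := ⟨b - 1, by omega⟩
      obtain ⟨r', rfl⟩ : ∃ r', r = r' + 1 := ⟨r - 1, by omega⟩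
      rw [Nat.add_sub_cancel, Nat.add_sub_cancel]
      exact Nat.choose_succ_succ _ _
    omega

theorem y_cj {K r L q h : ℕ} (P : Par K r L q h) (G : SimpleGraph V) (S : Finset V)
    (hmin : ∀ S' ⊂ S, (KS G r S').card ≤ F K r S'.card)
    (hbad : F K r S.card < (KS G r S).card) (j : ℕ) (hj : 1 ≤ j) (hjK : j ≤ K) :
    ∃ Cj ⊆ S, (KS G r S).card ≤ (KS G r Cj).card + j.choose r ∧
      ∀ x ∈ Cj, j ≤ 2 * (nb G Cj x).card + 1 := by
  obtain ⟨hr, hrK, -⟩ := par_facts P
  obtain ⟨C, hCS, hth, hks, hpj⟩ := peel2 G r ((j - 1).choose (r - 1) / r + 1) S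
  rw [Nat.add_sub_cancel] at hks hpj
  have hjj : j * ((j - 1).choose (r - 1) / r) ≤ j.choose r := by
    have h1 : j.choose r * r = j * (j - 1).choose (r - 1) := by
      obtain ⟨j', rfl⟩ : ∃ j', j = j' + 1 := ⟨j - 1, by omega⟩
      obtain ⟨r', rfl⟩ : ∃ r', r = r' + 1 := ⟨r - 1, by omega⟩
      rw [Nat.add_sub_cancel, Nat.add_sub_cancel]
      exact (Nat.add_one_mul_choose_eq j' r').symm
    have h2 : r * ((j - 1).choose (r - 1) / r) ≤ (j - 1).choose (r - 1) := Nat.mul_div_le _ _
    have h3 : j * ((j - 1).choose (r - 1) / r) * r ≤ j.choose r * r := by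
      rw [h1]
      calc j * ((j - 1).choose (r - 1) / r) * r = j * (r * ((j - 1).choose (r - 1) / r)) := by ring
        _ ≤ j * (j - 1).choose (r - 1) := Nat.mul_le_mul_left _ h2
    exact Nat.le_of_mul_le_mul_right h3 (by omega)
  have hlt : (S \ C).card < j := by
    by_contra hcon
    push Not at hcon
    obtain ⟨R, hR1, hR2, hR3⟩ := hpj j hcon
    have hRS : R ⊆ S := hR1.trans sdiff_subset
    have hRc := card_le_card hRS
    have h1 := hmin (S \ R) (sdiff_ssub hRS (by omega))
    rw [card_sdiff_of_subset hRS, hR2] at h1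
    have h2 := F_add K r (S.card - j) j (by omega) hjK (by omega)
    rw [Nat.sub_add_cancel (by omega)] at h2
    omega
  refine ⟨C, hCS, ?_, ?_⟩
  · have h1 : (S \ C).card * ((j - 1).choose (r - 1) / r) ≤ j * ((j - 1).choose (r - 1) / r) :=
      Nat.mul_le_mul_right _ hlt.le
    omega
  · intro x hx
    by_contra hcon
    push Not at hcon
    have h1 := (hth x hx).trans (cd_le G r (by omega) C x)
    have h2 := choose_double (j - 1) (nb G C x).card r (by omega) (by omega)
    have h3 : (j - 1).choose (r - 1) < r * ((j - 1).choose (r - 1) / r + 1) :=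
      Nat.lt_mul_div_succ _ (by omega)
    have h4 : r * ((j - 1).choose (r - 1) / r + 1) ≤ r * ((nb G C x).card).choose (r - 1) :=
      Nat.mul_le_mul_left _ h1
    omega

end Pool.Agent.H27.TD
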