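import Pool.Agent.H27.TD.ZAux
import Pool.Agent.H27.TD.TOrd
import Pool.Agent.H27.TD.TFar
import Pool.Agent.H27.TD.ERG
import Pool.Agent.H27.TD.EFinA

set_option autoImplicit false

/-
[H27 TD ZE2a]  Type I trees with few leaves: p vertices of degree 2 are placed at vertices x of X1
(outside Q) having many neighbours in Q.

far with l = 2p (1000 (3p + 1) <= K + 1: p <= 30 q, q <= h/743, h <= K/27738): a : Fin p -> α, degree 2,
pairwise distance >= 5. Let PrA = {a i}, PrB = the union of the neighbourhoods N(a i) (2p vertices; the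
N(a i) are pairwise disjoint and disjoint from PrA; two different vertices of PrB coming from different i
have distance >= 3; the two neighbours of the same a i have distance 2, are not adjacent, and their only
common neighbour is a i (tree: unique paths)).
Hence: (F) a vertex t not in PrA ∪ PrB has at most one neighbour in PrB and no neighbour in PrA; two
vertices of PrB are never adjacent.
Positions: choose distinct x_i in X1 (p <= |X1|), and an injective map from PrB into Q with the position
of s in N(a i) adjacent to x_i: greedy (2p vertices, each with at least 2 kap >= 2p candidates; or Hall).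
pos : PrA ∪ PrB -> V injective (X1 ⊆ O disjoint from Q).
A spread, |A| >= 140 h; A' := A \ PrA \ PrB, |A'| >= 140 h - 3p. P0 = univ \ A'. Root c = a 0 (p >= 1).
par, rk; Con = {t in P0 : t <> c, par t in P0}.
Regions: t in PrA ∪ PrB: {pos t}, class rk t + 1 (rk injective: all different, nonzero); other t (normal):
 {x in Q \ pos(PrB) : for every s in PrB adjacent to t, Adj (pos s) x}, class 0. |Reg| >= |Q| - 2p - 35 h.
Con, t prescribed: if par t is prescribed too, then (by distances) {t, par t} = {a i, s}, s in N(a i):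
 pos adjacent. If par t is normal then t in PrB (neighbours of a i are in PrB) and every y' in Reg(par t) is
 adjacent to pos t. earlier in class: none. 1 <= |{pos t} ∩ N(y')|.
Con, t normal: par t prescribed: par t = s in PrB (neighbours of a_i are prescribed), y' = pos s:
 Reg t ⊆ N(pos s), |Reg t| >= |Q| - 2p - 35 h. par t normal: y' in Q: |nb (Reg t) y'| >= |Q| - 2p - 70 h.
 earlier + 1 <= number of normal vertices of P0 = K + 1 - |A'| - 3p <= |Q| + p - (140 h - 3p) - 3p
 <= |Q| - 2p - 70 h (hcnt; 3 p <= 70 h).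
h2 similarly; t = c = a 0: prescribed.
finishA: a in A', b adjacent: b not in A', b not in PrA (its neighbours are in PrB), so phi b in Q.
 hcount: vertices placed in Q: not in PrA: |A'| + (K + 1 - |A'| - p) <= |Q|.
-/

namespace Pool.Agent.H27.TD

open Finset Classical
open Pool.Agent.H28.TreeClique

variable {V α : Type*} [Fintype α]

/-- Distances between far apart vertices and their neighbours. -/
lemma far_facts (T : SimpleGraph α) (hT : T.IsTree) (p : ℕ) (a : Fin p → α)
    (ha : ∀ i j, i ≠ j → 5 ≤ T.dist (a i) (a j)) :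
    Function.Injective a ∧
    (∀ i j s, T.Adj (a i) s → T.Adj (a j) s → i = j) ∧
    (∀ i j s, T.Adj (a i) s → s ≠ a j) ∧
    (∀ i j s s', T.Adj (a i) s → T.Adj (a j) s' → ¬ T.Adj s s') ∧
    (∀ i j s s' t, T.Adj (a i) s → T.Adj (a j) s' → T.Adj s t → T.Adj s' t → (∀ l, t ≠ a l) →
      s = s') := by
  have htri := fun u v w => hT.connected.dist_triangle (u := u) (v := v) (w := w)
  have hadj : ∀ u v, T.Adj u v → T.dist u v = 1 := fun u v h =>
    SimpleGraph.dist_eq_one_iff_adj.mpr h
  have h1 : ∀ i j s s' (n : ℕ), T.dist (a i) s ≤ 1 → T.dist s s' ≤ n → T.dist s' (a j) ≤ 1 →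
      n ≤ 2 → i = j := by
    intro i j s s' n g1 g2 g3 g4
    by_contra hne
    have g5 := ha i j hne
    have g6 := htri (a i) s (a j)
    have g7 := htri s s' (a j)
    omega
  have hself : ∀ u, T.dist u u = 0 := fun u => SimpleGraph.dist_self
  refine ⟨?_, ?_, ?_, ?_, ?_⟩
  · intro i j hij
    by_contra hne
    have := ha i j hne
    rw [hij, hself] at this
    omega
  · intro i j s g1 g2
    exact h1 i j s s 0 (hadj _ _ g1).le (hself s).le (hadj _ _ g2.symm).le (by omega)
  · intro i j s g1 g2
    have g3 : i = j := h1 i j s s 0 (hadj _ _ g1).le (hself s).le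
      (by rw [g2, hself]; omega) (by omega)
    rw [g2, g3] at g1
    exact T.loopless.irrefl _ g1
  · intro i j s s' g1 g2 g3
    have g4 : i = j := h1 i j s s' 1 (hadj _ _ g1).le (hadj _ _ g3).le (hadj _ _ g2.symm).le
      (by omega)
    subst g4
    obtain ⟨par, rk, -, -, hedge, -⟩ := exists_order T hT (a i)
    have e1 := hadj _ _ g1
    have e2 := hadj _ _ g2
    rcases hedge s s' g3 with ⟨-, -, g5⟩ | ⟨-, -, g5⟩ <;> omega
  · intro i j s s' t g1 g2 g3 g4 g5
    have g6 : T.dist s s' ≤ 2 := by
      have k1 := htri s t s'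
      rw [hadj _ _ g3, hadj _ _ g4.symm] at k1
      exact k1
    have g7 : i = j := h1 i j s s' 2 (hadj _ _ g1).le g6 (hadj _ _ g2.symm).le (by omega)
    subst g7
    obtain ⟨par, rk, -, -, hedge, -⟩ := exists_order T hT (a i)
    have e1 := hadj _ _ g1
    have e2 := hadj _ _ g2
    have key : ∀ s, T.dist (a i) s = 1 → T.Adj s t → s = par t := by
      intro s hs hst
      rcases hedge s t hst with ⟨-, -, k3⟩ | ⟨k1, -, -⟩
      · exfalso
        have k4 : T.dist (a i) t = 0 := by omega
        rcases SimpleGraph.dist_eq_zero_iff_eq_or_not_reachable.mp k4 with k5 | k5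
        · exact g5 i k5.symm
        · exact k5 (hT.connected.preconnected _ _)
      · exact k1
    rw [key s e1 g3, key s' e2 g4]

theorem e2a {K r L q h : ℕ} (P : Par K r L q h) (T : SimpleGraph α) (hT : T.IsTree)
    (hcard : Fintype.card α = K + 1) (hI : TypeI T (140 * h)) (G : SimpleGraph V)
    (Q X1 : Finset V) (hQ : Near G Q (35 * h)) (hQO : Disjoint Q X1) (p kap : ℕ) (hp : 1 ≤ p)
    (hpk : p ≤ kap) (hk : kap ≤ 30 * q) (hcnt : K + 1 ≤ Q.card + p)
    (hleaf : (LF T).card ≤ 2 * p) (hX : p ≤ X1.card)
    (hXo : ∀ x ∈ X1, 2 * kap ≤ (nb G Q x).card) : Emb T G := by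
  obtain ⟨hr, hrK, hq, hqh, hbig, hh3, -⟩ := par_facts P
  obtain ⟨A, ⟨hA1, hA2, hA3⟩, hAc⟩ := hI
  obtain ⟨a, had, hafar⟩ := far T hT (2 * p) p hleaf (by rw [hcard]; omega)
  obtain ⟨hainj, hD2, hD3, hD4, hD5⟩ := far_facts T hT p a hafar
  have hXne : X1.Nonempty := card_pos.mp (by omega)
  obtain ⟨x0, hx0⟩ := hXne
  haveI : Nonempty V := ⟨x0⟩
  haveI : Nonempty (Fin p) := ⟨⟨0, hp⟩⟩
  -- positions of the `a i`
  obtain ⟨xs, hxs1, hxs2⟩ := exists_inj (univ : Finset (Fin p)) X1 (by
    rw [card_univ, Fintype.card_fin]; exact hX)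
  have hxsinj : Function.Injective xs := by
    intro i j hij
    exact hxs2 (by simp) (by simp) hij
  set PrA : Finset α := univ.image a with hPrA
  have hPrAc : PrA.card = p := by
    rw [hPrA, card_image_of_injective _ hainj, card_univ, Fintype.card_fin]
  have memA : ∀ t, t ∈ PrA ↔ ∃ i, a i = t := by
    intro t
    rw [hPrA, mem_image]
    simp
  set PrB : Finset α := univ.biUnion (fun i => univ.filter (fun s => T.Adj (a i) s)) with hPrB
  have memB : ∀ t, t ∈ PrB ↔ ∃ i, T.Adj (a i) t := by
    intro t
    rw [hPrB, mem_biUnion]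
    simp
  have hPrBc : PrB.card ≤ 2 * p := by
    rw [hPrB]
    refine card_biUnion_le.trans ?_
    have : ∀ i ∈ (univ : Finset (Fin p)), (univ.filter (fun s => T.Adj (a i) s)).card ≤ 2 := by
      intro i _
      exact (had i).le
    refine (sum_le_card_nsmul _ _ _ this).trans ?_
    rw [card_univ, Fintype.card_fin, smul_eq_mul]
    omega
  have hAB : ∀ t, t ∈ PrA → t ∉ PrB := by
    intro t ht ht'
    obtain ⟨j, hj⟩ := (memA t).mp ht
    obtain ⟨i, hi⟩ := (memB t).mp ht'
    exact hD3 i j t hi hj.symm
  -- owner of an element of PrB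
  have hidx : ∀ s, ∃ i : Fin p, s ∈ PrB → T.Adj (a i) s := by
    intro s
    by_cases hs : s ∈ PrB
    · obtain ⟨i, hi⟩ := (memB s).mp hs
      exact ⟨i, fun _ => hi⟩
    · exact ⟨⟨0, hp⟩, fun h => absurd h hs⟩
  choose idx hidx using hidx
  have hia : ∀ t, ∃ i : Fin p, t ∈ PrA → a i = t := by
    intro t
    by_cases ht : t ∈ PrA
    · obtain ⟨i, hi⟩ := (memA t).mp ht
      exact ⟨i, fun _ => hi⟩
    · exact ⟨⟨0, hp⟩, fun h => absurd h ht⟩
  choose ia hia using hia
  obtain ⟨bt, hbt1, hbt2⟩ := hall_on PrB (fun s => nb G Q (xs (idx s))) (by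
    intro X hXP
    rcases X.eq_empty_or_nonempty with rfl | ⟨s, hs⟩
    · simp
    · have g1 : (nb G Q (xs (idx s))).card ≤
          (X.biUnion (fun s => nb G Q (xs (idx s)))).card :=
        card_le_card (subset_biUnion_of_mem (fun s => nb G Q (xs (idx s))) hs)
      have g2 := hXo (xs (idx s)) (hxs1 (idx s) (mem_univ _))
      have g3 := card_le_card hXP
      omega)
  set pos : α → V := fun t => if t ∈ PrA then xs (ia t) else bt t with hpos
  have posA : ∀ t ∈ PrA, pos t = xs (ia t) := by
    intro t ht
    simp only [hpos, if_pos ht]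
  have posB : ∀ t ∈ PrB, pos t = bt t := by
    intro t ht
    have : t ∉ PrA := fun h => hAB t h ht
    simp only [hpos, if_neg this]
  have posAX : ∀ t ∈ PrA, pos t ∈ X1 := by
    intro t ht
    rw [posA t ht]
    exact hxs1 _ (mem_univ _)
  have posBQ : ∀ t ∈ PrB, pos t ∈ Q := by
    intro t ht
    rw [posB t ht]
    exact (mem_filter.mp (hbt2 t ht)).1
  have posadj : ∀ t ∈ PrA, ∀ s ∈ PrB, T.Adj t s → G.Adj (pos t) (pos s) := by
    intro t ht s hs hts
    rw [posA t ht, posB s hs]
    have g1 := (mem_filter.mp (hbt2 s hs)).2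
    have g2 : idx s = ia t := by
      apply hD2 _ _ s (hidx s hs)
      rw [hia t ht]
      exact hts
    rw [g2] at g1
    exact g1
  set Pr : Finset α := PrA ∪ PrB with hPr
  have posinj : Set.InjOn pos (Pr : Set α) := by
    intro s hs t ht hst
    rw [Finset.mem_coe, hPr, mem_union] at hs ht
    rcases hs with hs | hs <;> rcases ht with ht | ht
    · rw [posA s hs, posA t ht] at hst
      have := hxsinj hst
      rw [← hia s hs, ← hia t ht, this]
    · exact absurd (hst ▸ posAX s hs) (fun h => (disjoint_left.mp hQO (posBQ t ht)) h)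
    · exact absurd (hst ▸ posBQ s hs) (fun h => (disjoint_left.mp hQO h) (posAX t ht))
    · rw [posB s hs, posB t ht] at hst
      exact hbt1 hs ht hst
  -- root
  obtain ⟨c, hc⟩ : ∃ c, c = a ⟨0, hp⟩ := ⟨_, rfl⟩
  have hcA : c ∈ PrA := (memA c).mpr ⟨_, hc.symm⟩
  obtain ⟨par, rk, hrk, hpar, hedge, hlt⟩ := exists_order T hT c
  set A' := (A \ PrA) \ PrB with hA'
  have hA'c : 140 * h ≤ A'.card + 3 * p := by
    have g1 := le_card_sdiff PrA A
    have g2 := le_card_sdiff PrB (A \ PrA)
    rw [← hA'] at g2
    omega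
  have hA'A : A' ⊆ A := sdiff_subset.trans sdiff_subset
  have hA'PA : ∀ t ∈ A', t ∉ PrA := fun t ht => (mem_sdiff.mp (mem_sdiff.mp ht).1).2
  have hA'PB : ∀ t ∈ A', t ∉ PrB := fun t ht => (mem_sdiff.mp ht).2
  set P0 : Finset α := univ.filter (fun t => t ∉ A') with hP0
  have memP0 : ∀ t, t ∈ P0 ↔ t ∉ A' := by
    intro t
    rw [hP0, mem_filter]
    simp
  set Con : Finset α := P0.filter (fun t => t ≠ c ∧ par t ∈ P0) with hCon
  set QB : Finset V := Q \ PrB.image pos with hQB
  set RegN : α → Finset V := fun t => QB.filter (fun w => ∀ s ∈ PrB, T.Adj s t → G.Adj (pos s) w)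
    with hRegN
  set Reg : α → Finset V := fun t => if t ∈ Pr then {pos t} else RegN t with hReg
  set cl : α → ℕ := fun t => if t ∈ Pr then rk t + 1 else 0 with hcl
  have regP : ∀ t ∈ Pr, Reg t = {pos t} ∧ cl t = rk t + 1 := by
    intro t ht
    simp only [hReg, hcl, if_pos ht, and_self]
  have regN : ∀ t, t ∉ Pr → Reg t = RegN t ∧ cl t = 0 := by
    intro t ht
    simp only [hReg, hcl, if_neg ht, and_self]
  have hQBQ : QB ⊆ Q := sdiff_subset
  have regNQ : ∀ t, RegN t ⊆ Q := fun t => (filter_subset _ _).trans hQBQ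
  have hQBc : Q.card ≤ QB.card + 2 * p := by
    have g1 := le_card_sdiff (PrB.image pos) Q
    have g2 : (PrB.image pos).card ≤ PrB.card := card_image_le
    rw [← hQB] at g1
    omega
  -- size of the normal regions
  have regNc : ∀ t, t ∉ Pr → Q.card ≤ (RegN t).card + 2 * p + 35 * h := by
    intro t ht
    have htA : ∀ l, t ≠ a l := by
      intro l hl
      apply ht
      rw [hPr, mem_union]
      left
      exact (memA t).mpr ⟨l, hl.symm⟩
    by_cases hs : ∃ s ∈ PrB, T.Adj s t
    · obtain ⟨s, hsB, hst⟩ := hs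
      have g1 : QB.filter (fun w => G.Adj (pos s) w) ⊆ RegN t := by
        intro w hw
        rw [mem_filter] at hw
        simp only [hRegN, mem_filter]
        refine ⟨hw.1, ?_⟩
        intro s' hs' hs't
        obtain ⟨i, hi⟩ := (memB s).mp hsB
        obtain ⟨j, hj⟩ := (memB s').mp hs'
        have := hD5 i j s s' t hi hj hst hs't htA
        rw [← this]
        exact hw.2
      have g2 := near_sub G Q QB (35 * h) hQ hQBQ (pos s) (posBQ s hsB)
      have g3 := card_le_card g1
      omega
    · push Not at hs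
      have g1 : QB ⊆ RegN t := by
        intro w hw
        simp only [hRegN, mem_filter]
        exact ⟨hw, fun s hs' hst => absurd hst (hs s hs')⟩
      have g3 := card_le_card g1
      omega
  have hnbA : ∀ t ∈ PrA, ∀ s, T.Adj t s → s ∈ PrB := by
    intro t ht s hts
    rw [memB]
    refine ⟨ia t, ?_⟩
    rw [hia t ht]
    exact hts
  have hnbB : ∀ s ∈ PrB, ∀ s' ∈ PrB, ¬ T.Adj s s' := by
    intro s hs s' hs'
    exact hD4 _ _ s s' (hidx s hs) (hidx s' hs')
  have ear0 : ∀ t ∈ Pr, (P0.filter (fun t' => rk t' < rk t ∧ cl t' = cl t)).card = 0 := by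
    intro t ht
    rw [card_eq_zero, filter_eq_empty_iff]
    rintro t' - ⟨g1, g2⟩
    rw [(regP t ht).2] at g2
    by_cases ht' : t' ∈ Pr
    · rw [(regP t' ht').2] at g2
      omega
    · rw [(regN t' ht').2] at g2
      omega
  have earN : ∀ t ∈ P0, t ∉ Pr →
      (P0.filter (fun t' => rk t' < rk t ∧ cl t' = cl t)).card + 1 ≤ P0.card := by
    intro t ht htP
    exact earlier_card P0 rk cl t P0 ht (fun t' ht' _ => ht')
  have hP0c : P0.card + A'.card ≤ K + 1 := by
    have d1 : Disjoint P0 A' := by
      rw [disjoint_left]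
      intro x hx hx'
      exact (memP0 x).mp hx hx'
    have g1 : (P0 ∪ A').card ≤ Fintype.card α := card_le_univ _
    rw [card_union_of_disjoint d1, hcard] at g1
    exact g1
  obtain ⟨φ, f1, f2, f3⟩ := rg G P0 rk hrk.injOn par Con (by
      intro t ht
      rw [hCon, mem_filter] at ht
      refine ⟨ht.1, ht.2.2, hlt _ _ ?_⟩
      have := (hpar t ht.2.1).2
      omega) Reg cl (by
      intro t _ t' _ hcc
      by_cases h1 : t ∈ Pr <;> by_cases h2 : t' ∈ Pr
      · rw [(regP t h1).2, (regP t' h2).2] at hcc
        rw [(regP t h1).1, (regP t' h2).1, disjoint_singleton_left, mem_singleton]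
        intro h
        have := posinj h1 h2 h
        rw [this] at hcc
        exact hcc rfl
      · rw [(regP t h1).1, (regN t' h2).1, disjoint_singleton_left]
        intro h
        have g1 := (mem_sdiff.mp (filter_subset _ _ h)).2
        rw [hPr, mem_union] at h1
        rcases h1 with h1 | h1
        · exact (disjoint_left.mp hQO (regNQ t' h)) (posAX t h1)
        · exact g1 (mem_image_of_mem pos h1)
      · rw [(regP t' h2).1, (regN t h1).1, disjoint_singleton_right]
        intro h
        have g1 := (mem_sdiff.mp (filter_subset _ _ h)).2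
        rw [hPr, mem_union] at h2
        rcases h2 with h2 | h2
        · exact (disjoint_left.mp hQO (regNQ t h)) (posAX t' h2)
        · exact g1 (mem_image_of_mem pos h2)
      · rw [(regN t h1).2, (regN t' h2).2] at hcc
        exact absurd rfl hcc) (by
      intro t ht y hy
      rw [hCon, mem_filter] at ht
      obtain ⟨htP, htc, hpP⟩ := ht
      have hadj := (hpar t htc).1
      by_cases h1 : t ∈ Pr
      · rw [ear0 t h1, (regP t h1).1, zero_add]
        apply card_pos.mpr
        refine ⟨pos t, mem_filter.mpr ⟨mem_singleton_self _, ?_⟩⟩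
        by_cases h2 : par t ∈ Pr
        · rw [(regP _ h2).1, mem_singleton] at hy
          rw [hy]
          rw [hPr, mem_union] at h1 h2
          rcases h1 with h1 | h1
          · have h4 := hnbA t h1 _ hadj
            exact (posadj t h1 _ h4 hadj).symm
          · rcases h2 with h2 | h2
            · exact posadj _ h2 t h1 hadj.symm
            · exact absurd hadj (hnbB t h1 _ h2)
        · rw [(regN _ h2).1] at hy
          simp only [hRegN, mem_filter] at hy
          rw [hPr, mem_union] at h1 h2
          rcases h1 with h1 | h1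
          · exact absurd (Or.inr (hnbA t h1 _ hadj)) h2
          · exact (hy.2 t h1 hadj).symm
      · have g1 := earN t htP h1
        rw [(regN t h1).1]
        have g2 := regNc t h1
        by_cases h2 : par t ∈ Pr
        · rw [(regP _ h2).1, mem_singleton] at hy
          rw [hPr, mem_union] at h1 h2
          rcases h2 with h2 | h2
          · exact absurd (Or.inr (hnbA _ h2 _ hadj.symm)) h1
          · have g3 : (RegN t).filter (fun x => G.Adj y x) = RegN t := by
              rw [filter_eq_self]
              intro w hw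
              simp only [hRegN, mem_filter] at hw
              rw [hy]
              exact hw.2 _ h2 hadj.symm
            rw [g3]
            omega
        · rw [(regN _ h2).1] at hy
          have g3 := near_sub G Q (RegN t) (35 * h) hQ (regNQ t) y (regNQ _ hy)
          omega) (by
      intro t ht _
      by_cases h1 : t ∈ Pr
      · rw [ear0 t h1, (regP t h1).1, card_singleton]
      · have g1 := earN t ht h1
        rw [(regN t h1).1]
        have g2 := regNc t h1
        omega)
  refine finishA T G A' φ Q (35 * h) hQ ?_ ?_ ?_ ?_ ?_ (by omega) ?_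
  · intro s hs b hsb
    have hbA : b ∉ A' := fun hb => hA2 s (hA'A hs) b (hA'A hb) hsb
    refine ⟨hbA, ?_⟩
    have hbP : b ∉ PrA := fun hb => hA'PB s hs (hnbA b hb s hsb.symm)
    have g1 := f2 b ((memP0 b).mpr hbA)
    by_cases h1 : b ∈ Pr
    · rw [(regP b h1).1, mem_singleton] at g1
      rw [g1]
      rw [hPr, mem_union] at h1
      rcases h1 with h1 | h1
      · exact absurd h1 hbP
      · exact posBQ b h1
    · rw [(regN b h1).1] at g1
      exact regNQ b g1
  · intro s hs
    exact hA1 s (hA'A hs)
  · intro s hs s' hs' b hsb hsb'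
    exact hA3 s (hA'A hs) s' (hA'A hs') b hsb hsb'
  · intro s hs t ht hst
    exact f1 ((memP0 s).mpr hs) ((memP0 t).mpr ht) hst
  · intro x y hx hy hxy
    rcases hedge x y hxy with ⟨g1, g2, -⟩ | ⟨g1, g2, -⟩
    · have : x ∈ Con := by
        rw [hCon, mem_filter]
        exact ⟨(memP0 x).mpr hx, g2, by rw [← g1]; exact (memP0 y).mpr hy⟩
      rw [g1]
      exact (f3 x this).symm
    · have : y ∈ Con := by
        rw [hCon, mem_filter]
        exact ⟨(memP0 y).mpr hy, g2, by rw [← g1]; exact (memP0 x).mpr hx⟩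
      rw [g1]
      exact f3 y this
  · have g1 : univ.filter (fun t => t ∉ A' ∧ φ t ∈ Q) ⊆ P0 \ PrA := by
      intro t ht
      rw [mem_filter] at ht
      rw [mem_sdiff]
      refine ⟨(memP0 t).mpr ht.2.1, fun hx => ?_⟩
      have g2 := f2 t ((memP0 t).mpr ht.2.1)
      rw [(regP t (by rw [hPr, mem_union]; left; exact hx)).1, mem_singleton] at g2
      have g3 := ht.2.2
      rw [g2] at g3
      exact (disjoint_left.mp hQO g3) (posAX t hx)
    have g2 := card_le_card g1
    have d1 : Disjoint (P0 \ PrA) A' := by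
      rw [disjoint_left]
      intro x hx hx'
      exact (memP0 x).mp (mem_sdiff.mp hx).1 hx'
    have d2 : Disjoint ((P0 \ PrA) ∪ A') PrA := by
      rw [disjoint_left]
      intro x hx hx'
      rw [mem_union] at hx
      rcases hx with hx | hx
      · exact (mem_sdiff.mp hx).2 hx'
      · exact hA'PA x hx hx'
    have g3 : (((P0 \ PrA) ∪ A') ∪ PrA).card ≤ Fintype.card α := card_le_univ _
    rw [card_union_of_disjoint d2, card_union_of_disjoint d1, hPrAc, hcard] at g3
    omega

end Pool.Agent.H27.TD
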