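import Pool.Agent.H27.TD.TSplit
import Pool.Agent.H27.TD.XOutI
import Pool.Agent.H27.TD.ZE1
import Pool.Agent.H27.TD.ZE2a

set_option autoImplicit false

/-
[H27 TD ZFinI]  Final embedding, type I.  p = K + 1 - |Q|, 1 <= p <= kap. O = Cj \ Q.
Choose Y ⊆ Ys with |Y| = 2 kap (hYs).
If 2p <= |LF T|: e1. Otherwise X1 = {x in O : 2 kap <= |nb Q x|}. If p <= |X1|: e2a. Otherwise
X2 = O \ X1: for x in X2, |nb Cj x| >= 5 kap (10 kap + 1 <= 2 |nb| + 1), Cj ⊆ (Cj ∩ Q) ∪ X1 ∪ X2,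
|nb (Cj ∩ Q) x| <= |nb Q x| < 2 kap, |nb X1 x| <= |X1| < p <= kap, so |nb X2 x| >= 2 kap. Take y in Y:
|nb O y| >= 2 kap, |nb X2 y| >= 2 kap - |X1| >= kap >= p. split2 with l = p: (z0, W), |W| <= 2p - 1 <= 2 kap,
roots <= p. outI with O := X2 (|W| <= 2 kap <= 60 q <= 20 h; K + 1 <= |Q| + |W| since |W| >= p; hdeep right).
-/

namespace Pool.Agent.H27.TD

open Finset Classical
open Pool.Agent.H28.TreeClique

variable {V α : Type*} [Fintype α]

theorem finI {K r L q h : ℕ} (P : Par K r L q h) (T : SimpleGraph α) (hT : T.IsTree)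
    (hcard : Fintype.card α = K + 1) (hI : TypeI T (140 * h)) (G : SimpleGraph V)
    (Q Cj : Finset V) (hQ : Near G Q (35 * h)) (hQK : Q.card ≤ K) (kap : ℕ) (hk1 : 1 ≤ kap)
    (hk : kap ≤ 30 * q) (hcnt : K + 1 ≤ Q.card + kap)
    (hYs : 2 * kap ≤ (Q.filter (fun y => 2 * kap ≤ (nb G (Cj \ Q) y).card)).card)
    (hdeg : ∀ x ∈ Cj, 10 * kap + 1 ≤ 2 * (nb G Cj x).card + 1) : Emb T G := by
  obtain ⟨hr, hrK, hq, hqh, hbig, hh3, -⟩ := par_facts P
  obtain ⟨p, hp⟩ : ∃ p, p = K + 1 - Q.card := ⟨_, rfl⟩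
  have hp1 : 1 ≤ p := by omega
  have hpk : p ≤ kap := by omega
  obtain ⟨Y, hYs', hYc⟩ := exists_subset_card_eq hYs
  have hYQ : Y ⊆ Q := hYs'.trans (filter_subset _ _)
  have hYo : ∀ y ∈ Y, 2 * kap ≤ (nb G (Cj \ Q) y).card := by
    intro y hy
    exact (mem_filter.mp (hYs' hy)).2
  by_cases hleaf : 2 * p ≤ (LF T).card
  · exact e1 P T hT hcard hI G Q (Cj \ Q) hQ disjoint_sdiff p kap hp1 hpk hk (by omega) hleaf Y
      hYQ hYc hYo
  push Not at hleaf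
  set X1 := (Cj \ Q).filter (fun x => 2 * kap ≤ (nb G Q x).card) with hX1
  have hX1s : X1 ⊆ Cj \ Q := filter_subset _ _
  by_cases hX : p ≤ X1.card
  · refine e2a P T hT hcard hI G Q X1 hQ ?_ p kap hp1 hpk hk (by omega) hleaf.le hX ?_
    · rw [disjoint_left]
      intro x hx hx'
      exact (mem_sdiff.mp (hX1s hx')).2 hx
    · intro x hx
      exact (mem_filter.mp hx).2
  push Not at hX
  set X2 := (Cj \ Q) \ X1 with hX2
  obtain ⟨y, hy⟩ : Y.Nonempty := card_pos.mp (by omega)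
  obtain ⟨z0, W, hW1, hW2, hW3, hW4⟩ := split2 T hT p hp1 (by omega)
  have hsplit : ∀ z, (nb G (Cj \ Q) z).card ≤ (nb G X2 z).card + X1.card := by
    intro z
    have g1 : nb G (Cj \ Q) z ⊆ nb G X2 z ∪ X1 := by
      intro x hx
      rw [nb, mem_filter] at hx
      rw [mem_union, nb, mem_filter, hX2, mem_sdiff]
      by_cases hx1 : x ∈ X1
      · right; exact hx1
      · left; exact ⟨⟨hx.1, hx1⟩, hx.2⟩
    exact (card_le_card g1).trans (card_union_le _ _)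
  refine outI P T hT hcard hI G Q X2 hQ ?_ z0 W hW1 (by omega) (by omega) y (hYQ hy) ?_ ?_
  · rw [disjoint_left]
    intro x hx hx'
    rw [hX2, mem_sdiff, mem_sdiff] at hx'
    exact hx'.1.2 hx
  · have g1 := hsplit y
    have g2 := hYo y hy
    omega
  · right
    intro x hx
    rw [hX2, mem_sdiff, mem_sdiff] at hx
    obtain ⟨⟨hxC, hxQ⟩, hx1⟩ := hx
    have g1 : (nb G Q x).card < 2 * kap := by
      by_contra hc
      push Not at hc
      exact hx1 (mem_filter.mpr ⟨mem_sdiff.mpr ⟨hxC, hxQ⟩, hc⟩)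
    have g2 : nb G Cj x ⊆ nb G Q x ∪ nb G (Cj \ Q) x := by
      intro z hz
      rw [nb, mem_filter] at hz
      rw [mem_union, nb, nb, mem_filter, mem_filter, mem_sdiff]
      by_cases hzQ : z ∈ Q
      · left; exact ⟨hzQ, hz.2⟩
      · right; exact ⟨⟨hz.1, hzQ⟩, hz.2⟩
    have g3 := (card_le_card g2).trans (card_union_le _ _)
    have g4 := hsplit x
    have g5 := hdeg x hxC
    omega

end Pool.Agent.H27.TD
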